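import Pool.Agent.Lib.VMV.Step

/-!
# Vinogradov's mean value theorem

`vmvt`: for `s = k (k + m)` the number of solutions of
`x_1 ^ j + .. + x_s ^ j = y_1 ^ j + .. + y_s ^ j`, `1 ≤ j ≤ k`, in `[1, N]` is at most
`s ^ (8 s (k + m)) N ^ (2 s - κ + κ (1 - 1 / k) ^ m)`, `κ = k (k + 1) / 2`.
-/

set_option autoImplicit false

namespace Pool.Agent.Lib.VMV

open Finset

theorem J_trivial (k s N : ℕ) : J k (Fin s) (Finset.Icc (1 : ℤ) N) ≤ N ^ (2 * s) := by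
  have h := J_add_le k 0 s (Finset.Icc (1 : ℤ) N)
  rw [zero_add] at h
  have h0 : J k (Fin 0) (Finset.Icc (1 : ℤ) N) ≤ 1 := by
    unfold J en
    refine (Finset.card_filter_le _ _).trans ?_
    rw [Finset.card_product]
    unfold T
    rw [Fintype.card_piFinset]
    simp
  refine h.trans ?_
  rw [Int.card_Icc, add_sub_cancel_right, Int.toNat_natCast]
  calc N ^ (2 * s) * J k (Fin 0) (Finset.Icc (1 : ℤ) N) ≤ N ^ (2 * s) * 1 :=
        Nat.mul_le_mul_left _ h0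
    _ = N ^ (2 * s) := mul_one _

/-- The step, with a simple constant. -/
theorem step' (k s N p : ℕ) (hp : p.Prime) (hkp : k < p) (hk : 2 ≤ k) (hs : k ^ 2 ≤ s)
    (hN : N ≤ p ^ k) (hM : (p : ℝ) ≤ 4 * N) :
    (J k (Fin (s + k)) (Finset.Icc (1 : ℤ) N) : ℝ) ≤
      4 * ((s + k : ℕ) : ℝ) ^ (4 * (s + k)) * ((p : ℝ) ^ (2 * s) * (p : ℝ) ^ (k * (k - 1) / 2)
        * (N : ℝ) ^ k) * (J k (Fin s) (Finset.Icc (1 : ℤ) ((N / p + 1 : ℕ) : ℤ)) : ℝ) := by
  have hk1 : 1 ≤ k := by omega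
  have hs1 : 1 ≤ s := le_trans (Nat.one_le_pow _ _ (by omega)) hs
  have h := step k s N p hp hkp hk1 hs1 hN
  set Jr := J k (Fin s) (Finset.Icc (1 : ℤ) ((N / p + 1 : ℕ) : ℤ)) with hJr
  have hp1 : (1 : ℝ) ≤ (p : ℝ) := by exact_mod_cast hp.one_lt.le
  have hp0 : (0 : ℝ) < (p : ℝ) := by linarith
  have hN0 : (0 : ℝ) ≤ (N : ℝ) := by positivity
  set S := s + k with hS
  have hS6 : 6 ≤ S := by nlinarith
  have hSr : (6 : ℝ) ≤ (S : ℝ) := by exact_mod_cast hS6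
  have hS1 : (1 : ℝ) ≤ (S : ℝ) := by linarith
  have hkS : (k : ℝ) ≤ (S : ℝ) := by exact_mod_cast (by omega : k ≤ S)
  -- factorials
  have f1 : (((k + s).factorial : ℕ) : ℝ) ^ 2 ≤ (S : ℝ) ^ (2 * S) := by
    have h1 : (k + s).factorial ≤ S ^ S := by
      have := Nat.factorial_le_pow S
      rwa [hS, add_comm s k] at this ⊢
    calc (((k + s).factorial : ℕ) : ℝ) ^ 2 ≤ ((S ^ S : ℕ) : ℝ) ^ 2 :=
          pow_le_pow_left₀ (by positivity) (by exact_mod_cast h1) 2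
      _ = (S : ℝ) ^ (2 * S) := by
          push_cast
          rw [← pow_mul, mul_comm]
  have f2 : ((k.factorial : ℕ) : ℝ) ≤ (S : ℝ) ^ (2 * S) := by
    have h1 : k.factorial ≤ k ^ k := Nat.factorial_le_pow k
    calc ((k.factorial : ℕ) : ℝ) ≤ ((k ^ k : ℕ) : ℝ) := by exact_mod_cast h1
      _ = (k : ℝ) ^ k := by push_cast; rfl
      _ ≤ (S : ℝ) ^ k := pow_le_pow_left₀ (by positivity) hkS k
      _ ≤ (S : ℝ) ^ (2 * S) := pow_le_pow_right₀ hS1 (by omega)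
  have hM1 : (((N / p + 1 : ℕ) : ℕ) : ℝ) ≤ 5 * (N / p) := by
    push_cast
    have h1 : ((N / p : ℕ) : ℝ) ≤ (N : ℝ) / p := Nat.cast_div_le
    have h2 : (1 : ℝ) ≤ 4 * ((N : ℝ) / p) := by
      rw [← mul_div_assoc, le_div_iff₀ hp0]
      linarith
    linarith
  have hpk : (N : ℝ) ^ k ≤ (p : ℝ) ^ (2 * s) := by
    calc (N : ℝ) ^ k ≤ ((p : ℝ) ^ k) ^ k := pow_le_pow_left₀ hN0 (by exact_mod_cast hN) k
      _ = (p : ℝ) ^ (k ^ 2) := by rw [← pow_mul, pow_two]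
      _ ≤ (p : ℝ) ^ (2 * s) := pow_le_pow_right₀ hp1 (by omega)
  have hpa : (1 : ℝ) ≤ (p : ℝ) ^ (k * (k - 1) / 2) := one_le_pow₀ hp1
  -- second term
  have t2 : ((p : ℝ) ^ (k - 1) * (((k - 1 : ℕ) : ℝ)) ^ (k + s)) ^ 2
      * (((N / p + 1 : ℕ) : ℕ) : ℝ) ^ (2 * k)
      ≤ (S : ℝ) ^ (4 * S) * ((p : ℝ) ^ (2 * s) * (p : ℝ) ^ (k * (k - 1) / 2) * (N : ℝ) ^ k) := by
    have a1 : (((k - 1 : ℕ) : ℝ)) ^ (k + s) ≤ (S : ℝ) ^ S := by
      rw [show k + s = S by omega]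
      exact pow_le_pow_left₀ (by positivity) (by
        have : ((k - 1 : ℕ) : ℝ) ≤ (k : ℝ) := by exact_mod_cast Nat.sub_le k 1
        linarith) _
    have a2 : (((N / p + 1 : ℕ) : ℕ) : ℝ) ^ (2 * k) ≤ (5 * ((N : ℝ) / p)) ^ (2 * k) :=
      pow_le_pow_left₀ (by positivity) hM1 _
    have a3 : (5 * ((N : ℝ) / p)) ^ (2 * k) = 25 ^ k * ((N : ℝ) ^ k * (N : ℝ) ^ k)
        / (p : ℝ) ^ (2 * k) := by
      rw [mul_pow, div_pow, pow_mul, pow_mul (N : ℝ) 2 k, ← mul_div_assoc, ← mul_pow (N : ℝ),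
        ← pow_two]
      norm_num
    have a4 : (p : ℝ) ^ (k - 1) ≤ (p : ℝ) ^ k := pow_le_pow_right₀ hp1 (by omega)
    have a5 : (25 : ℝ) ^ k ≤ (S : ℝ) ^ (2 * S) := by
      calc (25 : ℝ) ^ k ≤ ((S : ℝ) ^ 2) ^ k := pow_le_pow_left₀ (by norm_num) (by nlinarith) k
        _ = (S : ℝ) ^ (2 * k) := by rw [← pow_mul]
        _ ≤ (S : ℝ) ^ (2 * S) := pow_le_pow_right₀ hS1 (by omega)
    calc ((p : ℝ) ^ (k - 1) * (((k - 1 : ℕ) : ℝ)) ^ (k + s)) ^ 2
          * (((N / p + 1 : ℕ) : ℕ) : ℝ) ^ (2 * k)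
        ≤ ((p : ℝ) ^ k * (S : ℝ) ^ S) ^ 2 * (25 ^ k * ((N : ℝ) ^ k * (N : ℝ) ^ k)
          / (p : ℝ) ^ (2 * k)) := by
          rw [← a3]
          refine mul_le_mul (pow_le_pow_left₀ (by positivity)
            (mul_le_mul a4 a1 (by positivity) (by positivity)) 2) a2 (by positivity)
            (by positivity)
      _ = (S : ℝ) ^ (2 * S) * 25 ^ k * ((N : ℝ) ^ k * (N : ℝ) ^ k) := by
          have e1 : (p : ℝ) ^ (2 * k) ≠ 0 := by positivity
          rw [mul_pow, ← pow_mul, ← pow_mul, mul_comm k 2, mul_comm S 2]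
          field_simp
      _ ≤ (S : ℝ) ^ (2 * S) * (S : ℝ) ^ (2 * S) * ((p : ℝ) ^ (2 * s) * (N : ℝ) ^ k) := by
          refine mul_le_mul (mul_le_mul_of_nonneg_left a5 (by positivity))
            (mul_le_mul_of_nonneg_right hpk (by positivity)) (by positivity) (by positivity)
      _ ≤ (S : ℝ) ^ (4 * S) * ((p : ℝ) ^ (2 * s) * (p : ℝ) ^ (k * (k - 1) / 2)
          * (N : ℝ) ^ k) := by
          rw [← pow_add, show 2 * S + 2 * S = 4 * S by ring]
          refine mul_le_mul_of_nonneg_left (mul_le_mul_of_nonneg_right ?_ (by positivity))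
            (by positivity)
          exact le_mul_of_one_le_right (by positivity) hpa
  have hreal : (J k (Fin (s + k)) (Finset.Icc (1 : ℤ) N) : ℝ) ≤
      2 * ((((k + s).factorial : ℕ) : ℝ) ^ 2 * ((p : ℝ) ^ (2 * s) *
        ((Jr : ℝ) * ((((k.factorial : ℕ) : ℝ) * (p : ℝ) ^ (k * (k - 1) / 2)) * (N : ℝ) ^ k)))) +
      2 * (((p : ℝ) ^ (k - 1) * (((k - 1 : ℕ) : ℝ)) ^ (k + s)) ^ 2
        * ((((N / p + 1 : ℕ) : ℕ) : ℝ) ^ (2 * k) * (Jr : ℝ))) := by
    exact_mod_cast h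
  have hJ0 : (0 : ℝ) ≤ (Jr : ℝ) := by positivity
  set P : ℝ := (p : ℝ) ^ (2 * s) * (p : ℝ) ^ (k * (k - 1) / 2) * (N : ℝ) ^ k with hP
  have hP0 : 0 ≤ P := by positivity
  have t1 : 2 * ((((k + s).factorial : ℕ) : ℝ) ^ 2 * ((p : ℝ) ^ (2 * s) *
        ((Jr : ℝ) * ((((k.factorial : ℕ) : ℝ) * (p : ℝ) ^ (k * (k - 1) / 2)) * (N : ℝ) ^ k))))
      ≤ 2 * (S : ℝ) ^ (4 * S) * P * Jr := by
    have e1 : 2 * ((((k + s).factorial : ℕ) : ℝ) ^ 2 * ((p : ℝ) ^ (2 * s) *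
        ((Jr : ℝ) * ((((k.factorial : ℕ) : ℝ) * (p : ℝ) ^ (k * (k - 1) / 2)) * (N : ℝ) ^ k))))
        = 2 * ((((k + s).factorial : ℕ) : ℝ) ^ 2 * ((k.factorial : ℕ) : ℝ)) * P * Jr := by
      rw [hP]; ring
    rw [e1]
    have e2 : (((k + s).factorial : ℕ) : ℝ) ^ 2 * ((k.factorial : ℕ) : ℝ)
        ≤ (S : ℝ) ^ (4 * S) := by
      rw [show 4 * S = 2 * S + 2 * S by ring, pow_add]
      exact mul_le_mul f1 f2 (by positivity) (by positivity)
    have e3 : 2 * ((((k + s).factorial : ℕ) : ℝ) ^ 2 * ((k.factorial : ℕ) : ℝ))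
        ≤ 2 * (S : ℝ) ^ (4 * S) := by linarith
    exact mul_le_mul_of_nonneg_right (mul_le_mul_of_nonneg_right e3 hP0) hJ0
  have t3 : 2 * (((p : ℝ) ^ (k - 1) * (((k - 1 : ℕ) : ℝ)) ^ (k + s)) ^ 2
        * ((((N / p + 1 : ℕ) : ℕ) : ℝ) ^ (2 * k) * (Jr : ℝ)))
      ≤ 2 * (S : ℝ) ^ (4 * S) * P * Jr := by
    have := mul_le_mul_of_nonneg_right t2 hJ0
    nlinarith
  calc (J k (Fin (s + k)) (Finset.Icc (1 : ℤ) N) : ℝ) ≤ _ := hreal
    _ ≤ 2 * (S : ℝ) ^ (4 * S) * P * Jr + 2 * (S : ℝ) ^ (4 * S) * P * Jr := add_le_add t1 t3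
    _ = 4 * (S : ℝ) ^ (4 * S) * P * Jr := by ring

/-- A prime of the right size. -/
theorem exists_prime (k N : ℕ) (hk : 2 ≤ k) (hN : k ^ k ≤ N) :
    ∃ p : ℕ, p.Prime ∧ k < p ∧ N ≤ p ^ k ∧ (p : ℝ) ≤ 4 * (N : ℝ) ^ ((k : ℝ)⁻¹) := by
  have hk0 : (0 : ℝ) < (k : ℝ) := by positivity
  have hk1 : (1 : ℝ) ≤ (k : ℝ) := by exact_mod_cast (by omega : 1 ≤ k)
  set x : ℝ := (N : ℝ) ^ ((k : ℝ)⁻¹) with hx
  have hxk : x ^ k = N := by
    rw [hx]
    exact Real.rpow_inv_natCast_pow (by positivity) (by omega)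
  have hx0 : 0 ≤ x := Real.rpow_nonneg (by positivity) _
  have hkx : (k : ℝ) ≤ x := by
    refine le_of_pow_le_pow_left₀ (n := k) (by omega) hx0 ?_
    rw [hxk]
    exact_mod_cast hN
  set n := ⌈x⌉₊ with hn
  have hxn : x ≤ n := Nat.le_ceil x
  have hkn : k ≤ n := by
    have : (k : ℝ) ≤ n := hkx.trans hxn
    exact_mod_cast this
  obtain ⟨p, hp, hnp, hp2⟩ := Nat.exists_prime_lt_and_le_two_mul n (by omega)
  refine ⟨p, hp, by omega, ?_, ?_⟩
  · have h1 : (N : ℝ) ≤ (p : ℝ) ^ k := by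
      rw [← hxk]
      refine pow_le_pow_left₀ hx0 (hxn.trans ?_) k
      exact_mod_cast hnp.le
    exact_mod_cast h1
  · have h1 : (p : ℝ) ≤ 2 * n := by exact_mod_cast hp2
    have h2 : (n : ℝ) < x + 1 := Nat.ceil_lt_add_one hx0
    linarith

/-- **Vinogradov's mean value theorem.** -/
theorem vmvt (k m N : ℕ) (hk : 2 ≤ k) (hN : 1 ≤ N) :
    (J k (Fin (k * (k + m))) (Finset.Icc (1 : ℤ) N) : ℝ) ≤
      ((k * (k + m) : ℕ) : ℝ) ^ (8 * (k * (k + m)) * (k + m)) *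
        (N : ℝ) ^ (2 * ((k * (k + m) : ℕ) : ℝ) - (k : ℝ) * (k + 1) / 2
          + (k : ℝ) * (k + 1) / 2 * (1 - 1 / (k : ℝ)) ^ m) := by
  have hk2 : (2 : ℝ) ≤ (k : ℝ) := by exact_mod_cast hk
  have hk0 : (0 : ℝ) < (k : ℝ) := by linarith
  induction m generalizing N with
  | zero =>
    have hN1 : (1 : ℝ) ≤ (N : ℝ) := by exact_mod_cast hN
    have h1 := J_trivial k (k * (k + 0)) N
    have h2 : (J k (Fin (k * (k + 0))) (Finset.Icc (1 : ℤ) N) : ℝ)
        ≤ (N : ℝ) ^ (2 * (k * (k + 0))) := by exact_mod_cast h1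
    rw [pow_zero, mul_one, sub_add_cancel]
    have h3 : (N : ℝ) ^ (2 * ((k * (k + 0) : ℕ) : ℝ)) = (N : ℝ) ^ (2 * (k * (k + 0))) := by
      rw [← Real.rpow_natCast]
      push_cast
      rfl
    rw [h3]
    refine h2.trans (le_mul_of_one_le_left (by positivity) (one_le_pow₀ ?_))
    have : 1 ≤ k * (k + 0) := Nat.mul_pos (by omega) (by omega)
    exact_mod_cast this
  | succ m ih =>
    set κ : ℝ := (k : ℝ) * (k + 1) / 2 with hκ
    set s := k * (k + m) with hs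
    set θ : ℝ := 1 - 1 / (k : ℝ) with hθ
    have hθ0 : 0 ≤ θ := by
      rw [hθ, sub_nonneg, div_le_one hk0]
      linarith
    have hθ1 : θ ≤ 1 := by
      rw [hθ]
      have : 0 ≤ 1 / (k : ℝ) := by positivity
      linarith
    have hθm : θ ^ m ≤ 1 := pow_le_one₀ hθ0 hθ1
    have hθm0 : 0 ≤ θ ^ m := pow_nonneg hθ0 m
    have hκ0 : 0 ≤ κ := by positivity
    have hκk : κ ≤ (k : ℝ) ^ 2 := by
      rw [hκ]; nlinarith
    set Δ : ℝ := κ * θ ^ m with hΔ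
    have hΔ0 : 0 ≤ Δ := by positivity
    have hΔκ : Δ ≤ κ := by
      rw [hΔ]; exact mul_le_of_le_one_right hκ0 hθm
    have hS : k * (k + (m + 1)) = s + k := by rw [hs]; ring
    rw [hS]
    set S := s + k with hSd
    have hsk : k ^ 2 ≤ s := by rw [hs]; nlinarith [Nat.zero_le (k * m)]
    have hskr : (k : ℝ) ^ 2 ≤ (s : ℝ) := by exact_mod_cast hsk
    have hSr : (S : ℝ) = s + k := by rw [hSd]; push_cast; ring
    have hS6 : 6 ≤ S := by nlinarith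
    have hS6r : (6 : ℝ) ≤ (S : ℝ) := by exact_mod_cast hS6
    have hS1 : (1 : ℝ) ≤ (S : ℝ) := by linarith
    have hN1 : (1 : ℝ) ≤ (N : ℝ) := by exact_mod_cast hN
    have hN0 : (0 : ℝ) < (N : ℝ) := by linarith
    have hexp : 2 * (S : ℝ) - κ + κ * θ ^ (m + 1) = k + (2 * (s : ℝ) - κ + Δ) + (k - Δ / k) := by
      rw [pow_succ, hSr, hΔ, hθ]
      field_simp
      ring
    rcases lt_or_ge N (k ^ k) with hsmall | hbig
    · -- small `N`
      have h1 : (J k (Fin S) (Finset.Icc (1 : ℤ) N) : ℝ) ≤ (N : ℝ) ^ (2 * S) := by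
        exact_mod_cast J_trivial k S N
      have h2 : (N : ℝ) ^ (2 * S) = (N : ℝ) ^ (2 * (S : ℝ) - κ + κ * θ ^ (m + 1))
          * (N : ℝ) ^ (κ - κ * θ ^ (m + 1)) := by
        rw [← Real.rpow_natCast, ← Real.rpow_add hN0]
        congr 1
        push_cast
        ring
      have h3 : (N : ℝ) ^ (κ - κ * θ ^ (m + 1)) ≤ (S : ℝ) ^ (8 * S * (k + (m + 1))) := by
        have e1 : (N : ℝ) ^ (κ - κ * θ ^ (m + 1)) ≤ (N : ℝ) ^ ((k ^ 2 : ℕ) : ℝ) := by
          refine Real.rpow_le_rpow_of_exponent_le hN1 ?_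
          have : 0 ≤ κ * θ ^ (m + 1) := by positivity
          push_cast
          linarith
        refine e1.trans ?_
        rw [Real.rpow_natCast]
        calc (N : ℝ) ^ (k ^ 2) ≤ ((k : ℝ) ^ k) ^ (k ^ 2) := by
              refine pow_le_pow_left₀ hN0.le ?_ _
              exact_mod_cast hsmall.le
          _ = (k : ℝ) ^ (k * k ^ 2) := by rw [← pow_mul]
          _ ≤ (S : ℝ) ^ (k * k ^ 2) := by
              refine pow_le_pow_left₀ hk0.le ?_ _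
              rw [hSr]
              have : (0 : ℝ) ≤ s := by positivity
              linarith
          _ ≤ (S : ℝ) ^ (8 * S * (k + (m + 1))) := by
              refine pow_le_pow_right₀ hS1 ?_
              calc k * k ^ 2 ≤ k * S := Nat.mul_le_mul_left _ (by omega)
                _ = S * k := mul_comm _ _
                _ ≤ 8 * S * (k + (m + 1)) := Nat.mul_le_mul (by omega) (by omega)
      rw [h2] at h1
      calc (J k (Fin S) (Finset.Icc (1 : ℤ) N) : ℝ) ≤ _ := h1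
        _ ≤ (N : ℝ) ^ (2 * (S : ℝ) - κ + κ * θ ^ (m + 1)) * (S : ℝ) ^ (8 * S * (k + (m + 1))) :=
            mul_le_mul_of_nonneg_left h3 (by positivity)
        _ = _ := mul_comm _ _
    · obtain ⟨p, hp, hkp, hNp, hp4⟩ := exists_prime k N hk hbig
      set x : ℝ := (N : ℝ) ^ ((k : ℝ)⁻¹) with hx
      have hx1 : 1 ≤ x := Real.one_le_rpow hN1 (by positivity)
      have hx0 : 0 < x := by linarith
      have hp1 : (1 : ℝ) ≤ (p : ℝ) := by exact_mod_cast hp.one_lt.le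
      have hp0 : (0 : ℝ) < (p : ℝ) := by linarith
      have hxN : x ≤ N := by
        rw [hx]
        calc (N : ℝ) ^ ((k : ℝ)⁻¹) ≤ (N : ℝ) ^ (1 : ℝ) := by
              refine Real.rpow_le_rpow_of_exponent_le hN1 ?_
              exact inv_le_one_of_one_le₀ (by linarith)
          _ = N := Real.rpow_one _
      have hpN : (p : ℝ) ≤ 4 * N := by linarith
      have h1 := step' k s N p hp hkp hk hsk hNp hpN
      set M := N / p + 1 with hMd
      have hM1 : (1 : ℝ) ≤ (M : ℝ) := by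
        rw [hMd]; push_cast
        have : (0 : ℝ) ≤ ((N / p : ℕ) : ℝ) := by positivity
        linarith
      have hM5 : (M : ℝ) ≤ 5 * ((N : ℝ) / p) := by
        rw [hMd]; push_cast
        have e1 : ((N / p : ℕ) : ℝ) ≤ (N : ℝ) / p := Nat.cast_div_le
        have e2 : (1 : ℝ) ≤ 4 * ((N : ℝ) / p) := by
          rw [← mul_div_assoc, le_div_iff₀ hp0]
          linarith
        linarith
      have h2 := ih M (Nat.le_add_left 1 _)
      set e : ℝ := 2 * (s : ℝ) - κ + Δ with he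
      have he0 : 0 ≤ e := by
        rw [he]; nlinarith
      have he2 : e ≤ ((2 * s : ℕ) : ℝ) := by
        rw [he]; push_cast; linarith
      set C := (s : ℝ) ^ (8 * s * (k + m)) with hC
      have hC0 : 0 ≤ C := by positivity
      -- the power of `M`
      have h3 : (M : ℝ) ^ e ≤ 5 ^ (2 * s) * ((N : ℝ) / p) ^ e := by
        calc (M : ℝ) ^ e ≤ (5 * ((N : ℝ) / p)) ^ e :=
              Real.rpow_le_rpow (by positivity) hM5 he0
          _ = (5 : ℝ) ^ e * ((N : ℝ) / p) ^ e := Real.mul_rpow (by norm_num) (by positivity)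
          _ ≤ 5 ^ (2 * s) * ((N : ℝ) / p) ^ e := by
              refine mul_le_mul_of_nonneg_right ?_ (by positivity)
              rw [← Real.rpow_natCast]
              exact Real.rpow_le_rpow_of_exponent_le (by norm_num) he2
      have hka : ((k * (k - 1) / 2 : ℕ) : ℝ) = (k : ℝ) ^ 2 - κ := by
        have e1 : 2 * (k * (k - 1) / 2) = k * (k - 1) :=
          Nat.mul_div_cancel' (Nat.even_mul_pred_self k).two_dvd
        have e2 : (2 : ℝ) * ((k * (k - 1) / 2 : ℕ) : ℝ) = (k : ℝ) * ((k : ℝ) - 1) := by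
          have e3 : ((k - 1 : ℕ) : ℝ) = (k : ℝ) - 1 := by
            rw [Nat.cast_sub (by omega)]; simp
          rw [← e3]
          exact_mod_cast e1
        rw [hκ]
        linarith
      -- the power of `p`
      have h4 : (p : ℝ) ^ (2 * s) * (p : ℝ) ^ (k * (k - 1) / 2) * ((N : ℝ) / p) ^ e
          = (N : ℝ) ^ e * (p : ℝ) ^ ((k : ℝ) ^ 2 - Δ) := by
        rw [Real.div_rpow hN0.le hp0.le, ← Real.rpow_natCast, ← Real.rpow_natCast,
          ← Real.rpow_add hp0, hka, ← mul_div_assoc, mul_comm ((p : ℝ) ^ _) ((N : ℝ) ^ e),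
          mul_div_assoc, ← Real.rpow_sub hp0]
        congr 2
        rw [he]
        push_cast
        ring
      have hkΔ : 0 ≤ (k : ℝ) ^ 2 - Δ := by linarith
      have h5 : (p : ℝ) ^ ((k : ℝ) ^ 2 - Δ) ≤ 4 ^ (k ^ 2) * (N : ℝ) ^ ((k : ℝ) - Δ / k) := by
        calc (p : ℝ) ^ ((k : ℝ) ^ 2 - Δ) ≤ (4 * x) ^ ((k : ℝ) ^ 2 - Δ) :=
              Real.rpow_le_rpow hp0.le hp4 hkΔ
          _ = (4 : ℝ) ^ ((k : ℝ) ^ 2 - Δ) * x ^ ((k : ℝ) ^ 2 - Δ) :=
              Real.mul_rpow (by norm_num) hx0.le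
          _ ≤ 4 ^ (k ^ 2) * (N : ℝ) ^ ((k : ℝ) - Δ / k) := by
              refine mul_le_mul ?_ (le_of_eq ?_) (by positivity) (by positivity)
              · rw [← Real.rpow_natCast (4 : ℝ) (k ^ 2)]
                refine Real.rpow_le_rpow_of_exponent_le (x := (4 : ℝ)) (by norm_num) ?_
                push_cast
                linarith
              · rw [hx, ← Real.rpow_mul hN0.le]
                congr 1
                field_simp
      rw [hexp]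
      have h6 : (N : ℝ) ^ (k + e + (k - Δ / k)) = (N : ℝ) ^ k * (N : ℝ) ^ e
          * (N : ℝ) ^ ((k : ℝ) - Δ / k) := by
        rw [Real.rpow_add hN0, Real.rpow_add hN0, Real.rpow_natCast]
      rw [h6]
      -- constants
      have h7 : 4 * (S : ℝ) ^ (4 * S) * (5 ^ (2 * s) * 4 ^ (k ^ 2)) * C
          ≤ (S : ℝ) ^ (8 * S * (k + (m + 1))) := by
        have c1 : (4 : ℝ) ≤ (S : ℝ) ^ 1 := by rw [pow_one]; linarith
        have c2 : (5 : ℝ) ^ (2 * s) ≤ (S : ℝ) ^ (2 * s) :=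
          pow_le_pow_left₀ (by norm_num) (by linarith) _
        have c3 : (4 : ℝ) ^ (k ^ 2) ≤ (S : ℝ) ^ (k ^ 2) :=
          pow_le_pow_left₀ (by norm_num) (by linarith) _
        have c4 : C ≤ (S : ℝ) ^ (8 * s * (k + m)) := by
          rw [hC]
          refine pow_le_pow_left₀ (by positivity) ?_ _
          rw [hSr]; linarith
        calc 4 * (S : ℝ) ^ (4 * S) * (5 ^ (2 * s) * 4 ^ (k ^ 2)) * C
            ≤ (S : ℝ) ^ 1 * (S : ℝ) ^ (4 * S) * ((S : ℝ) ^ (2 * s) * (S : ℝ) ^ (k ^ 2))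
              * (S : ℝ) ^ (8 * s * (k + m)) := by
              gcongr
          _ = (S : ℝ) ^ (1 + 4 * S + (2 * s + k ^ 2) + 8 * s * (k + m)) := by
              simp only [pow_add]
          _ ≤ (S : ℝ) ^ (8 * S * (k + (m + 1))) := by
              refine pow_le_pow_right₀ hS1 ?_
              have d1 : 1 + 4 * S + (2 * s + k ^ 2) ≤ 8 * S := by omega
              have d2 : 8 * s * (k + m) ≤ 8 * S * (k + m) :=
                Nat.mul_le_mul_right _ (by omega)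
              calc 1 + 4 * S + (2 * s + k ^ 2) + 8 * s * (k + m) ≤ 8 * S + 8 * S * (k + m) :=
                    Nat.add_le_add d1 d2
                _ = 8 * S * (k + (m + 1)) := by ring
      have h8 : (p : ℝ) ^ (2 * s) * (p : ℝ) ^ (k * (k - 1) / 2) * (M : ℝ) ^ e
          ≤ 5 ^ (2 * s) * ((N : ℝ) ^ e * (4 ^ (k ^ 2) * (N : ℝ) ^ ((k : ℝ) - Δ / k))) := by
        calc (p : ℝ) ^ (2 * s) * (p : ℝ) ^ (k * (k - 1) / 2) * (M : ℝ) ^ e
            ≤ (p : ℝ) ^ (2 * s) * (p : ℝ) ^ (k * (k - 1) / 2)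
              * (5 ^ (2 * s) * ((N : ℝ) / p) ^ e) :=
              mul_le_mul_of_nonneg_left h3 (by positivity)
          _ = 5 ^ (2 * s) * ((p : ℝ) ^ (2 * s) * (p : ℝ) ^ (k * (k - 1) / 2)
              * ((N : ℝ) / p) ^ e) := by ring
          _ = 5 ^ (2 * s) * ((N : ℝ) ^ e * (p : ℝ) ^ ((k : ℝ) ^ 2 - Δ)) := by rw [h4]
          _ ≤ _ := by
              refine mul_le_mul_of_nonneg_left (mul_le_mul_of_nonneg_left h5 (by positivity))
                (by positivity)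
      calc (J k (Fin S) (Finset.Icc (1 : ℤ) N) : ℝ) ≤ _ := h1
        _ ≤ 4 * (S : ℝ) ^ (4 * S) * ((p : ℝ) ^ (2 * s) * (p : ℝ) ^ (k * (k - 1) / 2)
            * (N : ℝ) ^ k) * (C * (M : ℝ) ^ e) :=
            mul_le_mul_of_nonneg_left h2 (by positivity)
        _ = 4 * (S : ℝ) ^ (4 * S) * C * (N : ℝ) ^ k * ((p : ℝ) ^ (2 * s)
            * (p : ℝ) ^ (k * (k - 1) / 2) * (M : ℝ) ^ e) := by ring
        _ ≤ 4 * (S : ℝ) ^ (4 * S) * C * (N : ℝ) ^ k *
            (5 ^ (2 * s) * ((N : ℝ) ^ e * (4 ^ (k ^ 2) * (N : ℝ) ^ ((k : ℝ) - Δ / k)))) :=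
            mul_le_mul_of_nonneg_left h8 (by positivity)
        _ = (4 * (S : ℝ) ^ (4 * S) * (5 ^ (2 * s) * 4 ^ (k ^ 2)) * C) *
            ((N : ℝ) ^ k * (N : ℝ) ^ e * (N : ℝ) ^ ((k : ℝ) - Δ / k)) := by ring
        _ ≤ _ := mul_le_mul_of_nonneg_right h7 (by positivity)

end Pool.Agent.Lib.VMV
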