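import Pool.Agent.Lib.VMV.Four

/-!
# Numbers of solutions: inequalities of Hoelder type
-/

set_option autoImplicit false

namespace Pool.Agent.Lib.VMV

open Finset

/-- The number of pairs with the same value. -/
def en {ι : Type*} [DecidableEq ι] (k : ℕ) (D : Finset ι) (V : ι → Fin k → ℤ) : ℕ :=
  ((D ×ˢ D).filter fun z => V z.1 = V z.2).card

theorem exists_bound {ι : Type*} (k : ℕ) (D : Finset ι) (V : ι → Fin k → ℤ) :
    ∃ R : ℕ, ∀ x ∈ D, ∀ j, |V x j| ≤ R := by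
  classical
  refine ⟨∑ x ∈ D, ∑ j, (V x j).natAbs, fun x hx j => ?_⟩
  have h1 : (V x j).natAbs ≤ ∑ j, (V x j).natAbs :=
    Finset.single_le_sum (f := fun j => (V x j).natAbs) (fun _ _ => Nat.zero_le _)
      (Finset.mem_univ j)
  have h2 : (∑ j, (V x j).natAbs) ≤ ∑ x ∈ D, ∑ j, (V x j).natAbs :=
    Finset.single_le_sum (f := fun x => ∑ j, (V x j).natAbs) (fun _ _ => Nat.zero_le _) hx
  rw [Int.abs_eq_natAbs]
  exact_mod_cast h1.trans h2

theorem en_eq (Q k : ℕ) [NeZero Q] {ι : Type*} [DecidableEq ι] (D : Finset ι)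
    (V : ι → Fin k → ℤ) (R : ℕ) (h1 : ∀ x ∈ D, ∀ j, |V x j| ≤ R) (hQ : 2 * R < Q) :
    (en k D V : ℝ) * (Q : ℝ) ^ k = ∑ α : Fin k → ZMod Q, ‖F Q k D V α‖ ^ 2 := by
  classical
  have h := four Q k (D ×ˢ D) (fun z => V z.1 - V z.2) (by
      intro z hz j
      simp only [Finset.mem_product] at hz
      have a1 := h1 z.1 hz.1 j
      have a2 := h1 z.2 hz.2 j
      simp only [Pi.sub_apply]
      rw [abs_lt]
      rw [abs_le] at a1 a2
      constructor <;> omega)
  have h' : en k D V = ((D ×ˢ D).filter (fun z => V z.1 - V z.2 = 0)).card := by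
    unfold en
    congr 1
    refine Finset.filter_congr fun z _ => ?_
    exact sub_eq_zero.symm
  rw [← h'] at h
  have e : ∀ α : Fin k → ZMod Q, ∑ z ∈ D ×ˢ D, E Q k α (V z.1 - V z.2)
      = ((‖F Q k D V α‖ ^ 2 : ℝ) : ℂ) := by
    intro α
    have h2 : ((‖F Q k D V α‖ ^ 2 : ℝ) : ℂ) = F Q k D V α * (starRingEnd ℂ) (F Q k D V α) := by
      rw [Complex.mul_conj, Complex.normSq_eq_norm_sq]
    rw [h2]
    unfold F
    rw [map_sum, Finset.sum_mul_sum, Finset.sum_product]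
    refine Finset.sum_congr rfl fun x _ => Finset.sum_congr rfl fun y _ => ?_
    rw [sub_eq_add_neg, E_add, E_neg]
  simp only [e] at h
  exact_mod_cast h

theorem shift_le {ι : Type*} [DecidableEq ι] (k : ℕ) (D : Finset ι) (V : ι → Fin k → ℤ)
    (c : Fin k → ℤ) :
    ((D ×ˢ D).filter fun z => V z.1 - V z.2 = c).card ≤ en k D V := by
  classical
  obtain ⟨R, hR⟩ := exists_bound k D V
  obtain ⟨R', hR'⟩ := exists_bound k (Finset.univ : Finset Unit) (fun _ => c)
  set Q : ℕ := 2 * R + R' + 1 with hQd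
  have : NeZero Q := ⟨by omega⟩
  have h := four Q k (D ×ˢ D) (fun z => V z.1 - V z.2 - c) (by
      intro z hz j
      simp only [Finset.mem_product] at hz
      have a1 := hR z.1 hz.1 j
      have a2 := hR z.2 hz.2 j
      have a3 := hR' () (Finset.mem_univ _) j
      simp only [Pi.sub_apply]
      rw [abs_lt]
      rw [abs_le] at a1 a2 a3
      constructor <;> omega)
  have h' : ((D ×ˢ D).filter fun z => V z.1 - V z.2 = c).card
      = ((D ×ˢ D).filter (fun z => V z.1 - V z.2 - c = 0)).card := by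
    congr 1
    refine Finset.filter_congr fun z _ => ?_
    exact sub_eq_zero.symm
  rw [← h'] at h
  have h2 := en_eq Q k D V R hR (by omega)
  have e : ∀ α : Fin k → ZMod Q, ‖∑ z ∈ D ×ˢ D, E Q k α (V z.1 - V z.2 - c)‖
      = ‖F Q k D V α‖ ^ 2 := by
    intro α
    have h3 : ∑ z ∈ D ×ˢ D, E Q k α (V z.1 - V z.2 - c)
        = E Q k α (-c) * (F Q k D V α * (starRingEnd ℂ) (F Q k D V α)) := by
      unfold F
      rw [map_sum, Finset.sum_mul_sum, Finset.sum_product, Finset.mul_sum]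
      refine Finset.sum_congr rfl fun x _ => ?_
      rw [Finset.mul_sum]
      refine Finset.sum_congr rfl fun y _ => ?_
      rw [sub_eq_add_neg, E_add, sub_eq_add_neg, E_add, E_neg Q k α (V y)]
      ring
    rw [h3, norm_mul, norm_E, norm_mul, RCLike.norm_conj]
    ring
  have h4 := congrArg norm h
  rw [norm_mul, norm_pow, Complex.norm_natCast, Complex.norm_natCast] at h4
  have h5 : (((D ×ˢ D).filter fun z => V z.1 - V z.2 = c).card : ℝ) * (Q : ℝ) ^ k
      ≤ (en k D V : ℝ) * (Q : ℝ) ^ k := by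
    rw [h4, h2]
    refine (norm_sum_le _ _).trans (Finset.sum_le_sum fun α _ => ?_)
    exact (e α).le
  have hQpos : (0 : ℝ) < (Q : ℝ) ^ k := by
    have : (0 : ℝ) < (Q : ℝ) := by exact_mod_cast Nat.pos_of_ne_zero (NeZero.ne Q)
    positivity
  have h6 := le_of_mul_le_mul_right h5 hQpos
  exact_mod_cast h6

/-- Comparison under an injection. -/
theorem en_le_of_inj {ι κ : Type*} [DecidableEq ι] [DecidableEq κ] (k : ℕ) (D : Finset ι)
    (V : ι → Fin k → ℤ) (D' : Finset κ) (V' : κ → Fin k → ℤ) (g : ι → κ)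
    (hg : ∀ x ∈ D, g x ∈ D') (hinj : ∀ x ∈ D, ∀ y ∈ D, g x = g y → x = y)
    (hV : ∀ x ∈ D, ∀ y ∈ D, V x = V y → V' (g x) = V' (g y)) :
    en k D V ≤ en k D' V' := by
  unfold en
  refine Finset.card_le_card_of_injOn (fun z => (g z.1, g z.2)) ?_ ?_
  · intro z hz
    have hz' := Finset.mem_filter.mp (Finset.mem_coe.mp hz)
    have hz1 := Finset.mem_product.mp hz'.1
    refine Finset.mem_coe.mpr (Finset.mem_filter.mpr ⟨Finset.mem_product.mpr ⟨hg _ hz1.1, hg _ hz1.2⟩,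
      hV _ hz1.1 _ hz1.2 hz'.2⟩)
  · intro z hz w hw h
    have hz1 := Finset.mem_product.mp (Finset.mem_filter.mp (Finset.mem_coe.mp hz)).1
    have hw1 := Finset.mem_product.mp (Finset.mem_filter.mp (Finset.mem_coe.mp hw)).1
    have h' := Prod.mk.inj h
    exact Prod.ext (hinj _ hz1.1 _ hw1.1 h'.1) (hinj _ hz1.2 _ hw1.2 h'.2)

theorem en_mono {ι : Type*} [DecidableEq ι] (k : ℕ) (D D' : Finset ι) (V : ι → Fin k → ℤ)
    (h : D ⊆ D') : en k D V ≤ en k D' V :=
  en_le_of_inj k D V D' V id (fun x hx => h hx) (fun _ _ _ _ h => h) (fun _ _ _ _ h => h)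

/-- Splitting a set into the fibres of a map. -/
theorem en_fiber {ι β : Type*} [DecidableEq ι] [DecidableEq β] (k : ℕ) (D : Finset ι)
    (V : ι → Fin k → ℤ) (σ : Finset β) (τ : ι → β) (hτ : ∀ x ∈ D, τ x ∈ σ) :
    en k D V ≤ σ.card * ∑ b ∈ σ, en k (D.filter fun x => τ x = b) V := by
  classical
  obtain ⟨R, hR⟩ := exists_bound k D V
  set Q : ℕ := 2 * R + 1 with hQd
  have : NeZero Q := ⟨by omega⟩
  have h1 := en_eq Q k D V R hR (by omega)
  have h2 : ∀ b ∈ σ, (en k (D.filter fun x => τ x = b) V : ℝ) * (Q : ℝ) ^ k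
      = ∑ α : Fin k → ZMod Q, ‖F Q k (D.filter fun x => τ x = b) V α‖ ^ 2 := by
    intro b _
    exact en_eq Q k _ V R (fun x hx => hR x (Finset.mem_filter.mp hx).1) (by omega)
  have h3 : ∀ α : Fin k → ZMod Q, ‖F Q k D V α‖ ^ 2
      ≤ (σ.card : ℝ) * ∑ b ∈ σ, ‖F Q k (D.filter fun x => τ x = b) V α‖ ^ 2 := by
    intro α
    have h4 : F Q k D V α = ∑ b ∈ σ, F Q k (D.filter fun x => τ x = b) V α := by
      unfold F
      exact (Finset.sum_fiberwise_of_maps_to hτ _).symm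
    rw [h4]
    have h5 := norm_sum_le σ (fun b => F Q k (D.filter fun x => τ x = b) V α)
    refine (pow_le_pow_left₀ (norm_nonneg _) h5 2).trans ?_
    exact sq_sum_le_card_mul_sum_sq
  have h6 : (en k D V : ℝ) * (Q : ℝ) ^ k
      ≤ ((σ.card : ℝ) * ∑ b ∈ σ, (en k (D.filter fun x => τ x = b) V : ℝ)) * (Q : ℝ) ^ k := by
    rw [h1, mul_assoc, Finset.sum_mul, Finset.sum_congr rfl h2, Finset.sum_comm, Finset.mul_sum]
    exact Finset.sum_le_sum fun α _ => h3 α
  have hQpos : (0 : ℝ) < (Q : ℝ) ^ k := by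
    have : (0 : ℝ) < (Q : ℝ) := by exact_mod_cast Nat.pos_of_ne_zero (NeZero.ne Q)
    positivity
  have h7 := le_of_mul_le_mul_right h6 hQpos
  exact_mod_cast h7

/-- The sum over a product set. -/
theorem F_prod (Q k : ℕ) [NeZero Q] {ι κ : Type*} (D : Finset ι) (V : ι → Fin k → ℤ)
    (U : Finset κ) (W : κ → Fin k → ℤ) (α : Fin k → ZMod Q) :
    F Q k (D ×ˢ U) (fun z => V z.1 + W z.2) α = F Q k D V α * F Q k U W α := by
  unfold F
  rw [Finset.sum_mul_sum, Finset.sum_product]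
  exact Finset.sum_congr rfl fun x _ => Finset.sum_congr rfl fun y _ => E_add _ _ _ _ _

/-- The powers of an integer. -/
def pw (k : ℕ) (n : ℤ) : Fin k → ℤ := fun j => n ^ (j.1 + 1)

/-- The power sums. -/
def PS (k : ℕ) {ι : Type*} [Fintype ι] (x : ι → ℤ) : Fin k → ℤ := fun j => ∑ i, x i ^ (j.1 + 1)

theorem PS_eq (k : ℕ) {ι : Type*} [Fintype ι] (x : ι → ℤ) : PS k x = ∑ i, pw k (x i) := by
  funext j
  simp [PS, pw]

/-- The sum over a box of tuples. -/
theorem F_pi (Q k : ℕ) [NeZero Q] {ι : Type*} [Fintype ι] [DecidableEq ι] (I : ι → Finset ℤ)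
    (α : Fin k → ZMod Q) :
    F Q k (Fintype.piFinset I) (PS k) α = ∏ i, F Q k (I i) (pw k) α := by
  unfold F
  rw [Finset.prod_univ_sum]
  refine Finset.sum_congr rfl fun x _ => ?_
  rw [PS_eq, E_sum]

/-- The tuples from `I`. -/
def T (ι : Type*) [Fintype ι] [DecidableEq ι] (I : Finset ℤ) : Finset (ι → ℤ) :=
  Fintype.piFinset fun _ => I

/-- The number of solutions of Vinogradov's system, with variables from `I`. -/
def J (k : ℕ) (ι : Type*) [Fintype ι] [DecidableEq ι] (I : Finset ℤ) : ℕ :=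
  en k (T ι I) (PS k)

theorem F_T (Q k : ℕ) [NeZero Q] {ι : Type*} [Fintype ι] [DecidableEq ι] (I : Finset ℤ)
    (α : Fin k → ZMod Q) :
    F Q k (T ι I) (PS k) α = F Q k I (pw k) α ^ Fintype.card ι := by
  unfold T
  rw [F_pi]
  simp

theorem J_mono (k : ℕ) (ι : Type*) [Fintype ι] [DecidableEq ι] (I I' : Finset ℤ) (h : I ⊆ I') :
    J k ι I ≤ J k ι I' :=
  en_mono k _ _ _ (Fintype.piFinset_subset _ _ fun _ => h)

/-- The geometric mean. -/
theorem prod_le_sum_pow {ι : Type*} [Fintype ι] [Nonempty ι] (a : ι → ℝ) (ha : ∀ i, 0 ≤ a i) :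
    (Fintype.card ι : ℝ) * ∏ i, a i ≤ ∑ i, a i ^ Fintype.card ι := by
  have hn : 0 < Fintype.card ι := Fintype.card_pos
  have hn' : (0 : ℝ) < (Fintype.card ι : ℝ) := by exact_mod_cast hn
  have h := Real.geom_mean_le_arith_mean_weighted (Finset.univ : Finset ι)
    (fun _ => ((Fintype.card ι : ℝ))⁻¹) (fun i => a i ^ Fintype.card ι)
    (fun i _ => by positivity) (by
      rw [Finset.sum_const, Finset.card_univ, nsmul_eq_mul]
      exact mul_inv_cancel₀ hn'.ne')
    (fun i _ => pow_nonneg (ha i) _)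
  have h2 : ∀ i, (a i ^ Fintype.card ι) ^ ((Fintype.card ι : ℝ))⁻¹ = a i := fun i =>
    Real.pow_rpow_inv_natCast (ha i) hn.ne'
  simp only [h2] at h
  rw [← Finset.mul_sum] at h
  calc (Fintype.card ι : ℝ) * ∏ i, a i ≤ (Fintype.card ι : ℝ) * (((Fintype.card ι : ℝ))⁻¹ *
        ∑ i, a i ^ Fintype.card ι) := mul_le_mul_of_nonneg_left h hn'.le
    _ = ∑ i, a i ^ Fintype.card ι := by
      rw [← mul_assoc, mul_inv_cancel₀ hn'.ne', one_mul]

/-- Hoelder for boxes of tuples. -/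
theorem en_pi_le {ι : Type*} [Fintype ι] [DecidableEq ι] [Nonempty ι] (k : ℕ)
    (I : ι → Finset ℤ) :
    Fintype.card ι * en k (Fintype.piFinset I) (PS k) ≤ ∑ i, J k ι (I i) := by
  classical
  obtain ⟨R0, hR0⟩ := exists_bound k (Fintype.piFinset I) (PS k)
  have hR1 : ∀ i : ι, ∃ R : ℕ, ∀ x ∈ T ι (I i), ∀ j, |PS k x j| ≤ R := fun i =>
    exists_bound k _ _
  choose R hR using hR1
  set Q : ℕ := 2 * R0 + 2 * (∑ i, R i) + 1 with hQd
  have : NeZero Q := ⟨by omega⟩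
  have h1 := en_eq Q k _ (PS k) R0 hR0 (by omega)
  have h2 : ∀ i, (J k ι (I i) : ℝ) * (Q : ℝ) ^ k
      = ∑ α : Fin k → ZMod Q, (‖F Q k (I i) (pw k) α‖ ^ 2) ^ Fintype.card ι := by
    intro i
    have h3 : R i ≤ ∑ i, R i := Finset.single_le_sum (f := R) (fun _ _ => Nat.zero_le _)
      (Finset.mem_univ i)
    unfold J
    rw [en_eq Q k _ (PS k) (R i) (hR i) (by omega)]
    refine Finset.sum_congr rfl fun α _ => ?_
    rw [F_T, norm_pow, ← pow_mul, ← pow_mul, mul_comm]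
  have hQpos : (0 : ℝ) < (Q : ℝ) ^ k := by
    have : (0 : ℝ) < (Q : ℝ) := by exact_mod_cast Nat.pos_of_ne_zero (NeZero.ne Q)
    positivity
  have h6 : ((Fintype.card ι : ℝ) * (en k (Fintype.piFinset I) (PS k) : ℝ)) * (Q : ℝ) ^ k
      ≤ (∑ i, (J k ι (I i) : ℝ)) * (Q : ℝ) ^ k := by
    rw [mul_assoc, h1, Finset.sum_mul, Finset.sum_congr rfl (fun i _ => h2 i), Finset.sum_comm,
      Finset.mul_sum]
    refine Finset.sum_le_sum fun α _ => ?_
    rw [F_pi, norm_prod, ← Finset.prod_pow]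
    exact prod_le_sum_pow _ (fun i => by positivity)
  have h7 := le_of_mul_le_mul_right h6 hQpos
  exact_mod_cast h7

end Pool.Agent.Lib.VMV
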