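import Mathlib

/-!
# Counting solutions with additive characters modulo `Q`
-/

set_option autoImplicit false

namespace Pool.Agent.Lib.VMV

open Finset

/-- The character `α ↦ e(α · v / Q)`. -/
noncomputable def E (Q k : ℕ) [NeZero Q] (α : Fin k → ZMod Q) (v : Fin k → ℤ) : ℂ :=
  ZMod.stdAddChar (∑ j, α j * ((v j : ℤ) : ZMod Q))

theorem E_add (Q k : ℕ) [NeZero Q] (α : Fin k → ZMod Q) (v w : Fin k → ℤ) :
    E Q k α (v + w) = E Q k α v * E Q k α w := by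
  unfold E
  rw [← AddChar.map_add_eq_mul]
  congr 1
  rw [← Finset.sum_add_distrib]
  refine Finset.sum_congr rfl fun j _ => ?_
  simp [mul_add]

theorem E_zero (Q k : ℕ) [NeZero Q] (α : Fin k → ZMod Q) : E Q k α 0 = 1 := by
  unfold E
  simp

theorem norm_E (Q k : ℕ) [NeZero Q] (α : Fin k → ZMod Q) (v : Fin k → ℤ) : ‖E Q k α v‖ = 1 := by
  unfold E
  exact AddChar.norm_apply _ _

theorem E_neg (Q k : ℕ) [NeZero Q] (α : Fin k → ZMod Q) (v : Fin k → ℤ) :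
    E Q k α (-v) = (starRingEnd ℂ) (E Q k α v) := by
  have h1 : E Q k α (-v) * E Q k α v = 1 := by
    rw [← E_add, neg_add_cancel, E_zero]
  have h2 : (starRingEnd ℂ) (E Q k α v) * E Q k α v = 1 := by
    rw [mul_comm, Complex.mul_conj, Complex.normSq_eq_norm_sq, norm_E]
    simp
  have h3 : E Q k α v ≠ 0 := by
    intro h
    have := norm_E Q k α v
    rw [h] at this
    simp at this
  exact mul_right_cancel₀ h3 (h1.trans h2.symm)

theorem E_sum (Q k : ℕ) [NeZero Q] (α : Fin k → ZMod Q) {ι : Type*} (s : Finset ι)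
    (v : ι → Fin k → ℤ) : E Q k α (∑ i ∈ s, v i) = ∏ i ∈ s, E Q k α (v i) := by
  classical
  induction s using Finset.induction_on with
  | empty => simp [E_zero]
  | insert a s ha ih => rw [Finset.sum_insert ha, Finset.prod_insert ha, E_add, ih]

theorem stdAddChar_sum (Q : ℕ) [NeZero Q] {ι : Type*} (s : Finset ι) (f : ι → ZMod Q) :
    (ZMod.stdAddChar (∑ i ∈ s, f i) : ℂ) = ∏ i ∈ s, (ZMod.stdAddChar (f i) : ℂ) := by
  classical
  induction s using Finset.induction_on with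
  | empty => simp
  | insert a s ha ih =>
    rw [Finset.sum_insert ha, Finset.prod_insert ha, AddChar.map_add_eq_mul, ih]

theorem orth (Q k : ℕ) [NeZero Q] (v : Fin k → ℤ) :
    ∑ α : Fin k → ZMod Q, E Q k α v
      = if (∀ j, ((v j : ℤ) : ZMod Q) = 0) then (Q : ℂ) ^ k else 0 := by
  classical
  have h1 : ∀ α : Fin k → ZMod Q, E Q k α v
      = ∏ j, (ZMod.stdAddChar (α j * ((v j : ℤ) : ZMod Q)) : ℂ) := by
    intro α
    unfold E
    exact stdAddChar_sum Q _ _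
  simp only [h1]
  have h2 := Finset.prod_univ_sum (R := ℂ) (fun _ : Fin k => (Finset.univ : Finset (ZMod Q)))
    (fun j a => (ZMod.stdAddChar (a * ((v j : ℤ) : ZMod Q)) : ℂ))
  rw [Fintype.piFinset_univ] at h2
  rw [← h2]
  have h3 : ∀ j : Fin k, ∑ a : ZMod Q, (ZMod.stdAddChar (a * ((v j : ℤ) : ZMod Q)) : ℂ)
      = if ((v j : ℤ) : ZMod Q) = 0 then (Q : ℂ) else 0 := by
    intro j
    have := AddChar.sum_mulShift (R := ZMod Q) (R' := ℂ) ((v j : ℤ) : ZMod Q)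
      (ZMod.isPrimitive_stdAddChar Q)
    rw [this, ZMod.card]
    split_ifs <;> simp
  simp only [h3]
  by_cases h : ∀ j, ((v j : ℤ) : ZMod Q) = 0
  · rw [if_pos h]
    rw [Finset.prod_congr rfl (fun j _ => if_pos (h j))]
    simp
  · rw [if_neg h]
    push Not at h
    obtain ⟨j, hj⟩ := h
    exact Finset.prod_eq_zero (Finset.mem_univ j) (if_neg hj)

theorem four (Q k : ℕ) [NeZero Q] {ι : Type*} (Ω : Finset ι) (V : ι → Fin k → ℤ)
    (hV : ∀ ω ∈ Ω, ∀ j, |V ω j| < Q) :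
    ((Ω.filter fun ω => V ω = 0).card : ℂ) * (Q : ℂ) ^ k
      = ∑ α : Fin k → ZMod Q, ∑ ω ∈ Ω, E Q k α (V ω) := by
  classical
  rw [Finset.sum_comm]
  simp only [orth]
  rw [Finset.card_filter]
  push_cast
  rw [Finset.sum_mul]
  refine Finset.sum_congr rfl fun ω hω => ?_
  have h1 : (∀ j, ((V ω j : ℤ) : ZMod Q) = 0) ↔ V ω = 0 := by
    constructor
    · intro h
      funext j
      have h2 := (ZMod.intCast_zmod_eq_zero_iff_dvd _ _).mp (h j)
      exact Int.eq_zero_of_abs_lt_dvd h2 (hV ω hω j)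
    · intro h j
      rw [h]
      simp
  by_cases h : V ω = 0
  · rw [if_pos (h1.mpr h)]
    simp [h]
  · rw [if_neg (fun h2 => h (h1.mp h2))]
    simp [h]

/-- The exponential sum of a finite family. -/
noncomputable def F (Q k : ℕ) [NeZero Q] {ι : Type*} (D : Finset ι) (V : ι → Fin k → ℤ)
    (α : Fin k → ZMod Q) : ℂ := ∑ x ∈ D, E Q k α (V x)

/-- The number of solutions of `V x - V y + W u - W v = c`. -/
def cnt (k : ℕ) {ι κ : Type*} (D D' : Finset ι) (V : ι → Fin k → ℤ) (U : Finset κ)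
    (W : κ → Fin k → ℤ) (c : Fin k → ℤ) : ℕ :=
  (((D ×ˢ D') ×ˢ (U ×ˢ U)).filter
    (fun z => V z.1.1 - V z.1.2 + (W z.2.1 - W z.2.2) = c)).card

theorem cnt_eq (Q k : ℕ) [NeZero Q] {ι κ : Type*} (D D' : Finset ι) (V : ι → Fin k → ℤ)
    (U : Finset κ) (W : κ → Fin k → ℤ) (c : Fin k → ℤ) (R : ℤ)
    (h1 : ∀ x ∈ D, ∀ j, |V x j| ≤ R) (h1' : ∀ x ∈ D', ∀ j, |V x j| ≤ R)
    (h2 : ∀ x ∈ U, ∀ j, |W x j| ≤ R) (hc : ∀ j, |c j| ≤ R) (hQ : 5 * R < Q) :
    (cnt k D D' V U W c : ℂ) * (Q : ℂ) ^ k = ∑ α : Fin k → ZMod Q,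
      E Q k α (-c) * (F Q k D V α * (starRingEnd ℂ) (F Q k D' V α)
        * (F Q k U W α * (starRingEnd ℂ) (F Q k U W α))) := by
  classical
  have h := four Q k ((D ×ˢ D') ×ˢ (U ×ˢ U))
    (fun z => V z.1.1 - V z.1.2 + (W z.2.1 - W z.2.2) - c) (by
      intro z hz j
      simp only [Finset.mem_product] at hz
      have a1 := h1 z.1.1 hz.1.1 j
      have a2 := h1' z.1.2 hz.1.2 j
      have a3 := h2 z.2.1 hz.2.1 j
      have a4 := h2 z.2.2 hz.2.2 j
      have a5 := hc j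
      simp only [Pi.add_apply, Pi.sub_apply]
      rw [abs_lt]
      rw [abs_le] at a1 a2 a3 a4 a5
      constructor <;> omega)
  have e : (fun z : (ι × ι) × (κ × κ) => V z.1.1 - V z.1.2 + (W z.2.1 - W z.2.2) - c = 0)
      = (fun z => V z.1.1 - V z.1.2 + (W z.2.1 - W z.2.2) = c) := by
    funext z
    exact propext sub_eq_zero
  unfold cnt
  have h' : (((D ×ˢ D') ×ˢ (U ×ˢ U)).filter
      (fun z => V z.1.1 - V z.1.2 + (W z.2.1 - W z.2.2) = c)).card
      = (((D ×ˢ D') ×ˢ (U ×ˢ U)).filter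
      (fun z => V z.1.1 - V z.1.2 + (W z.2.1 - W z.2.2) - c = 0)).card := by
    congr 1
    refine Finset.filter_congr fun z _ => ?_
    exact sub_eq_zero.symm
  rw [h', h]
  refine Finset.sum_congr rfl fun α _ => ?_
  have h3 : ∀ z : (ι × ι) × (κ × κ), E Q k α (V z.1.1 - V z.1.2 + (W z.2.1 - W z.2.2) - c)
      = E Q k α (-c) * ((E Q k α (V z.1.1) * (starRingEnd ℂ) (E Q k α (V z.1.2)))
        * (E Q k α (W z.2.1) * (starRingEnd ℂ) (E Q k α (W z.2.2)))) := by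
    intro z
    rw [sub_eq_add_neg, E_add, E_add, sub_eq_add_neg, E_add, sub_eq_add_neg, E_add, E_neg, E_neg]
    ring
  simp only [h3]
  rw [← Finset.mul_sum]
  congr 1
  rw [Finset.sum_product' (s := D ×ˢ D') (t := U ×ˢ U)
    (f := fun a b => (E Q k α (V a.1) * (starRingEnd ℂ) (E Q k α (V a.2)))
        * (E Q k α (W b.1) * (starRingEnd ℂ) (E Q k α (W b.2))))]
  simp only [← Finset.mul_sum, ← Finset.sum_mul]
  unfold F
  rw [map_sum, map_sum]
  simp only [Finset.sum_product, ← Finset.mul_sum, ← Finset.sum_mul]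

/-- The real form for `D = D'`, `c = 0`. -/
theorem cnt_eq_real (Q k : ℕ) [NeZero Q] {ι κ : Type*} (D : Finset ι) (V : ι → Fin k → ℤ)
    (U : Finset κ) (W : κ → Fin k → ℤ) (R : ℤ)
    (h1 : ∀ x ∈ D, ∀ j, |V x j| ≤ R) (h2 : ∀ x ∈ U, ∀ j, |W x j| ≤ R) (hR : 0 ≤ R)
    (hQ : 5 * R < Q) :
    (cnt k D D V U W 0 : ℝ) * (Q : ℝ) ^ k = ∑ α : Fin k → ZMod Q,
      ‖F Q k D V α‖ ^ 2 * ‖F Q k U W α‖ ^ 2 := by
  have h := cnt_eq Q k D D V U W 0 R h1 h1 h2 (by intro j; simpa using hR) hQ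
  have e : ∀ α : Fin k → ZMod Q, E Q k α (-0) * (F Q k D V α * (starRingEnd ℂ) (F Q k D V α)
        * (F Q k U W α * (starRingEnd ℂ) (F Q k U W α)))
        = ((‖F Q k D V α‖ ^ 2 * ‖F Q k U W α‖ ^ 2 : ℝ) : ℂ) := by
    intro α
    rw [neg_zero, E_zero, Complex.mul_conj, Complex.mul_conj, Complex.normSq_eq_norm_sq,
      Complex.normSq_eq_norm_sq]
    push_cast
    ring
  simp only [e] at h
  exact_mod_cast h

/-- The number of solutions is largest at `0`. -/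
theorem cnt_le (Q k : ℕ) [NeZero Q] {ι κ : Type*} (D D' : Finset ι) (V : ι → Fin k → ℤ)
    (U : Finset κ) (W : κ → Fin k → ℤ) (c : Fin k → ℤ) (R : ℤ)
    (h1 : ∀ x ∈ D, ∀ j, |V x j| ≤ R) (h1' : ∀ x ∈ D', ∀ j, |V x j| ≤ R)
    (h2 : ∀ x ∈ U, ∀ j, |W x j| ≤ R) (hc : ∀ j, |c j| ≤ R) (hQ : 5 * R < Q) :
    (cnt k D D' V U W c : ℝ) * (Q : ℝ) ^ k ≤ ∑ α : Fin k → ZMod Q,
      ‖F Q k D V α‖ * ‖F Q k D' V α‖ * ‖F Q k U W α‖ ^ 2 := by
  have h := cnt_eq Q k D D' V U W c R h1 h1' h2 hc hQ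
  have h3 := congrArg norm h
  rw [norm_mul, norm_pow, Complex.norm_natCast, Complex.norm_natCast] at h3
  rw [h3]
  refine (norm_sum_le _ _).trans (Finset.sum_le_sum fun α _ => ?_)
  rw [norm_mul, norm_E, norm_mul, norm_mul, norm_mul, RCLike.norm_conj, RCLike.norm_conj]
  nlinarith [norm_nonneg (F Q k D V α)]

end Pool.Agent.Lib.VMV
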