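import Mathlib

/-!
# The congruence lemma of Linnik

`linnik`: for a prime `p > k`, the number of `x ∈ [1, N]^k`, `N ≤ p ^ k`, whose entries are
different modulo `p` and with `∑ (x_i - a) ^ j ≡ λ_j (mod p ^ j)`, `1 ≤ j ≤ k`, is at most
`k! p ^ (k (k - 1) / 2)`.
-/

set_option autoImplicit false

namespace Pool.Agent.Lib.VMV

open Finset

/-- Newton's identities: equal power sums give equal products. -/
theorem prod_sub_eq {R : Type*} [CommRing R] (k : ℕ) (x y : Fin k → R)
    (hk : IsUnit ((k.factorial : ℕ) : R))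
    (h : ∀ j : ℕ, 1 ≤ j → j ≤ k → ∑ i, x i ^ j = ∑ i, y i ^ j) (t : R) :
    ∏ i, (t - x i) = ∏ i, (t - y i) := by
  have hu : ∀ j : ℕ, 1 ≤ j → j ≤ k → IsUnit ((j : ℕ) : R) := by
    intro j h1 h2
    have h3 : j ∣ k.factorial := Nat.dvd_factorial h1 h2
    exact isUnit_of_dvd_unit (by exact_mod_cast Nat.cast_dvd_cast h3) hk
  have key : ∀ j : ℕ, j ≤ k → MvPolynomial.aeval x (MvPolynomial.esymm (Fin k) R j)
      = MvPolynomial.aeval y (MvPolynomial.esymm (Fin k) R j) := by
    intro j
    induction j using Nat.strong_induction_on with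
    | _ j ih =>
      intro hj
      rcases Nat.eq_zero_or_pos j with rfl | hpos
      · simp [MvPolynomial.esymm_zero]
      · have e1 := congrArg (MvPolynomial.aeval x) (MvPolynomial.mul_esymm_eq_sum (Fin k) R j)
        have e2 := congrArg (MvPolynomial.aeval y) (MvPolynomial.mul_esymm_eq_sum (Fin k) R j)
        simp only [map_mul, map_natCast, map_pow, map_neg, map_one, map_sum] at e1 e2
        have e3 : (j : R) * MvPolynomial.aeval x (MvPolynomial.esymm (Fin k) R j)
            = (j : R) * MvPolynomial.aeval y (MvPolynomial.esymm (Fin k) R j) := by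
          rw [e1, e2]
          congr 1
          refine Finset.sum_congr rfl fun a ha => ?_
          have ha' := Finset.mem_filter.mp ha
          have ha3 : a.1 + a.2 = j := Finset.HasAntidiagonal.mem_antidiagonal.mp ha'.1
          have h4 : a.1 < j := ha'.2
          have h5 : 1 ≤ a.2 := by omega
          have h6 : a.2 ≤ k := by omega
          rw [ih a.1 h4 (by omega)]
          congr 1
          simp only [MvPolynomial.psum, map_sum, map_pow, MvPolynomial.aeval_X]
          exact h a.2 h5 h6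
        exact (hu j hpos hj).mul_left_cancel e3
  have hes : ∀ (z : Fin k → R), ∏ i, (t - z i) =
      ∑ j ∈ range (k + 1), (-1) ^ j * (MvPolynomial.aeval z (MvPolynomial.esymm (Fin k) R j)
        * t ^ (k - j)) := by
    intro z
    have h7 := Multiset.prod_X_sub_X_eq_sum_esymm (R := R) ((Finset.univ : Finset (Fin k)).val.map z)
    have h8 := congrArg (Polynomial.eval t) h7
    simp only [Polynomial.eval_multiset_prod, Multiset.map_map, Function.comp_def,
      Polynomial.eval_sub, Polynomial.eval_X, Polynomial.eval_C, Polynomial.eval_finsetSum,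
      Polynomial.eval_mul, Polynomial.eval_pow, Polynomial.eval_neg, Polynomial.eval_one,
      Multiset.card_map, Finset.card_val, Finset.card_univ, Fintype.card_fin] at h8
    rw [show ∏ i, (t - z i) = (Multiset.map (fun i => t - z i) (Finset.univ : Finset (Fin k)).val).prod
      from rfl, h8]
    refine Finset.sum_congr rfl fun j _ => ?_
    rw [MvPolynomial.aeval_esymm_eq_multiset_esymm]
  rw [hes x, hes y]
  refine Finset.sum_congr rfl fun j hj => ?_
  rw [key j (by simpa [Nat.lt_succ_iff] using hj)]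

/-- Two tuples, distinct modulo `p`, with the same power sums modulo `p ^ k` are permutations of
each other modulo `p ^ k`. -/
theorem perm_of_psum (p k : ℕ) (hp : p.Prime) (hkp : k < p) (hk : 1 ≤ k) (x y : Fin k → ℤ)
    (hx : ∀ i i', (p : ℤ) ∣ x i - x i' → i = i') (hy : ∀ i i', (p : ℤ) ∣ y i - y i' → i = i')
    (h : ∀ j : ℕ, 1 ≤ j → j ≤ k → ((p : ℤ) ^ k) ∣ ∑ i, x i ^ j - ∑ i, y i ^ j) :
    ∃ σ : Equiv.Perm (Fin k), ∀ i, ((p : ℤ) ^ k) ∣ y i - x (σ i) := by
  have hpz : Prime (p : ℤ) := Nat.prime_iff_prime_int.mp hp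
  have hunit : IsUnit ((k.factorial : ℕ) : ZMod (p ^ k)) := by
    rw [ZMod.isUnit_iff_coprime]
    refine Nat.Coprime.pow_right k ?_
    exact (Nat.coprime_comm.mp ((Nat.Prime.coprime_iff_not_dvd hp).mpr
      (fun h1 => absurd ((Nat.Prime.dvd_factorial hp).mp h1) (by omega))))
  have h0 : ∀ i, ((p : ℤ) ^ k) ∣ ∏ j, (y i - x j) := by
    intro i
    have e1 := prod_sub_eq k (fun j => ((x j : ℤ) : ZMod (p ^ k))) (fun j => ((y j : ℤ) : ZMod (p ^ k)))
      hunit (by
        intro j h1 h2
        have h3 := (ZMod.intCast_zmod_eq_zero_iff_dvd (∑ i, x i ^ j - ∑ i, y i ^ j) (p ^ k)).mpr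
          (by exact_mod_cast h j h1 h2)
        push_cast at h3
        exact sub_eq_zero.mp h3) ((y i : ℤ) : ZMod (p ^ k))
    have e2 : ∏ j, (((y i : ℤ) : ZMod (p ^ k)) - ((y j : ℤ) : ZMod (p ^ k))) = 0 :=
      Finset.prod_eq_zero (Finset.mem_univ i) (by simp)
    rw [e2] at e1
    have e3 : (((∏ j, (y i - x j) : ℤ)) : ZMod (p ^ k)) = 0 := by
      push_cast
      exact e1
    have e4 := (ZMod.intCast_zmod_eq_zero_iff_dvd _ _).mp e3
    exact_mod_cast e4
  have h1 : ∀ i, ∃ j, ((p : ℤ) ^ k) ∣ y i - x j := by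
    intro i
    have h2 : (p : ℤ) ∣ ∏ j, (y i - x j) :=
      dvd_trans (dvd_pow_self _ (by omega)) (h0 i)
    obtain ⟨j, _, hj⟩ := (Prime.dvd_finsetProd_iff hpz _).mp h2
    refine ⟨j, ?_⟩
    have h3 := h0 i
    rw [← Finset.mul_prod_erase Finset.univ _ (Finset.mem_univ j)] at h3
    have h4 : IsCoprime ((p : ℤ) ^ k) (∏ j' ∈ Finset.univ.erase j, (y i - x j')) := by
      refine IsCoprime.pow_left ?_
      refine (Prime.coprime_iff_not_dvd hpz).mpr ?_
      intro h5
      obtain ⟨j', hj', h6⟩ := (Prime.dvd_finsetProd_iff hpz _).mp h5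
      have h7 : (p : ℤ) ∣ x j - x j' := by
        have := dvd_sub h6 hj
        have e : (y i - x j') - (y i - x j) = x j - x j' := by ring
        rwa [e] at this
      exact (Finset.mem_erase.mp hj').1 (hx j j' h7).symm
    exact h4.dvd_of_dvd_mul_right h3
  choose s hs using h1
  have hinj : Function.Injective s := by
    intro i i' he
    apply hy i i'
    have h5 := dvd_sub (hs i) (he ▸ hs i')
    rw [he] at h5
    have e : (y i - x (s i')) - (y i' - x (s i')) = y i - y i' := by ring
    rw [e] at h5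
    exact dvd_trans (dvd_pow_self _ (by omega)) h5
  exact ⟨Equiv.ofBijective s (Finite.injective_iff_bijective.mp hinj), hs⟩

/-- The tuples of `[1, N]^k` with entries distinct modulo `p`. -/
noncomputable def dist (k N p : ℕ) : Finset (Fin k → ℤ) :=
  (Fintype.piFinset fun _ => Finset.Icc (1 : ℤ) N).filter
    (fun x => ∀ i i', (p : ℤ) ∣ x i - x i' → i = i')

theorem linnik (k N p : ℕ) (hp : p.Prime) (hkp : k < p) (hk : 1 ≤ k) (hN : N ≤ p ^ k) (a : ℤ)
    (v : Fin k → ℤ) :
    ((dist k N p).filter (fun x => ∀ j : Fin k, ((p : ℤ) ^ (j.1 + 1)) ∣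
      ∑ i, (x i - a) ^ (j.1 + 1) - v j)).card ≤ k.factorial * p ^ (k * (k - 1) / 2) := by
  classical
  set D := (dist k N p).filter (fun x => ∀ j : Fin k, ((p : ℤ) ^ (j.1 + 1)) ∣
      ∑ i, (x i - a) ^ (j.1 + 1) - v j) with hD
  have hpp : 0 < p := hp.pos
  set f : (Fin k → ℤ) → (Fin k → ℕ) := fun x j =>
    ((∑ i, (x i - a) ^ (j.1 + 1)) % ((p : ℤ) ^ k)).toNat with hf
  have hpk : (0 : ℤ) < (p : ℤ) ^ k := by positivity
  -- fibres
  have hfib : ∀ b ∈ D.image f, (D.filter (fun x => f x = b)).card ≤ k.factorial := by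
    intro b hb
    obtain ⟨x0, hx0, rfl⟩ := Finset.mem_image.mp hb
    have hcard : (Finset.univ : Finset (Equiv.Perm (Fin k))).card = k.factorial := by
      rw [Finset.card_univ, Fintype.card_perm, Fintype.card_fin]
    rw [← hcard]
    have hx0' := (Finset.mem_filter.mp (Finset.mem_filter.mp hx0).1)
    have hx0I : ∀ i, x0 i ∈ Finset.Icc (1 : ℤ) N := fun i => Fintype.mem_piFinset.mp hx0'.1 i
    refine Finset.card_le_card_of_surjOn (fun (σ : Equiv.Perm (Fin k)) i => x0 (σ i)) ?_
    intro x hx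
    have hx1 := (Finset.mem_filter.mp (Finset.mem_coe.mp hx))
    have hx2 := (Finset.mem_filter.mp (Finset.mem_filter.mp hx1.1).1)
    have hxI : ∀ i, x i ∈ Finset.Icc (1 : ℤ) N := fun i => Fintype.mem_piFinset.mp hx2.1 i
    obtain ⟨σ, hσ⟩ := perm_of_psum p k hp hkp hk (fun i => x0 i - a) (fun i => x i - a)
      (by
        intro i i' h
        apply hx0'.2 i i'
        have e : x0 i - a - (x0 i' - a) = x0 i - x0 i' := by ring
        rwa [e] at h)
      (by
        intro i i' h
        apply hx2.2 i i'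
        have e : x i - a - (x i' - a) = x i - x i' := by ring
        rwa [e] at h)
      (by
        intro j h1 h2
        have h3 := congrFun hx1.2 ⟨j - 1, by omega⟩
        simp only [hf] at h3
        have h4 : j - 1 + 1 = j := by omega
        rw [h4] at h3
        have h5 := Int.emod_nonneg (∑ i, (x i - a) ^ j) (ne_of_gt hpk)
        have h6 := Int.emod_nonneg (∑ i, (x0 i - a) ^ j) (ne_of_gt hpk)
        have h7 : (∑ i, (x i - a) ^ j) % ((p : ℤ) ^ k)
            = (∑ i, (x0 i - a) ^ j) % ((p : ℤ) ^ k) := by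
          have := congrArg (fun n : ℕ => (n : ℤ)) h3
          simp only [Int.toNat_of_nonneg h5, Int.toNat_of_nonneg h6] at this
          exact this
        exact Int.ModEq.dvd h7)
    refine ⟨σ, Finset.mem_coe.mpr (Finset.mem_univ σ), ?_⟩
    funext i
    have h8 := hσ i
    have e : x i - a - (x0 (σ i) - a) = x i - x0 (σ i) := by ring
    rw [e] at h8
    have h9 := Finset.mem_Icc.mp (hxI i)
    have h10 := Finset.mem_Icc.mp (hx0I (σ i))
    have h11 : (x i - x0 (σ i)).natAbs < p ^ k := by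
      have : p ^ k ≥ N := hN
      omega
    have h12 : x i - x0 (σ i) = 0 := by
      apply Int.eq_zero_of_abs_lt_dvd h8
      rw [Int.abs_eq_natAbs]
      exact_mod_cast h11
    show x0 (σ i) = x i
    omega
  have hmain := Finset.card_le_mul_card_image D k.factorial hfib
  refine hmain.trans (Nat.mul_le_mul_left _ ?_)
  -- image
  have himg : D.image f ⊆ Fintype.piFinset (fun j : Fin k =>
      (Finset.range (p ^ k)).filter (fun z => z % p ^ (j.1 + 1) = ((v j) % ((p : ℤ) ^ (j.1 + 1))).toNat)) := by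
    intro b hb
    obtain ⟨x, hx, rfl⟩ := Finset.mem_image.mp hb
    rw [Fintype.mem_piFinset]
    intro j
    have hx1 := (Finset.mem_filter.mp hx).2 j
    rw [Finset.mem_filter, Finset.mem_range]
    have h5 := Int.emod_nonneg (∑ i, (x i - a) ^ (j.1 + 1)) (ne_of_gt hpk)
    have h6 := Int.emod_lt_of_pos (∑ i, (x i - a) ^ (j.1 + 1)) hpk
    constructor
    · simp only [hf]
      have : (((∑ i, (x i - a) ^ (j.1 + 1)) % ((p : ℤ) ^ k)).toNat : ℤ) < ((p ^ k : ℕ) : ℤ) := by
        rw [Int.toNat_of_nonneg h5]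
        exact_mod_cast h6
      exact_mod_cast this
    · simp only [hf]
      have hpj : (0 : ℤ) < (p : ℤ) ^ (j.1 + 1) := by positivity
      have h7 : ((((∑ i, (x i - a) ^ (j.1 + 1)) % ((p : ℤ) ^ k)).toNat % p ^ (j.1 + 1) : ℕ) : ℤ)
          = (((v j) % ((p : ℤ) ^ (j.1 + 1))).toNat : ℤ) := by
        push_cast
        rw [Int.toNat_of_nonneg (Int.emod_nonneg _ (ne_of_gt hpj)), Int.toNat_of_nonneg h5]
        rw [Int.emod_emod_of_dvd _ (pow_dvd_pow _ (by omega))]
        exact Int.ModEq.symm (Int.modEq_iff_dvd.mpr hx1)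
      exact_mod_cast h7
  refine (Finset.card_le_card himg).trans ?_
  rw [Fintype.card_piFinset]
  have hc : ∀ j : Fin k, ((Finset.range (p ^ k)).filter (fun z => z % p ^ (j.1 + 1)
      = ((v j) % ((p : ℤ) ^ (j.1 + 1))).toNat)).card ≤ p ^ (k - 1 - j.1) := by
    intro j
    have h1 : (Finset.range (p ^ (k - 1 - j.1))).card = p ^ (k - 1 - j.1) := Finset.card_range _
    rw [← h1]
    refine Finset.card_le_card_of_injOn (fun z => z / p ^ (j.1 + 1)) ?_ ?_
    · intro z hz
      have hz1 := Finset.mem_filter.mp (Finset.mem_coe.mp hz)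
      rw [Finset.mem_coe, Finset.mem_range]
      have h2 : p ^ k = p ^ (k - 1 - j.1) * p ^ (j.1 + 1) := by
        rw [← pow_add]
        congr 1
        omega
      apply Nat.div_lt_of_lt_mul
      rw [mul_comm, ← h2]
      exact Finset.mem_range.mp hz1.1
    · intro z hz w hw h
      have hz1 := Finset.mem_filter.mp (Finset.mem_coe.mp hz)
      have hw1 := Finset.mem_filter.mp (Finset.mem_coe.mp hw)
      have h3 := Nat.div_add_mod z (p ^ (j.1 + 1))
      have h4 := Nat.div_add_mod w (p ^ (j.1 + 1))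
      simp only at h
      rw [h, hz1.2] at h3
      rw [hw1.2] at h4
      omega
  refine (Finset.prod_le_prod' (fun j _ => hc j)).trans ?_
  rw [Finset.prod_pow_eq_pow_sum]
  refine le_of_eq ?_
  congr 1
  have h1 : ∑ j : Fin k, (k - 1 - j.1) = ∑ j ∈ Finset.range k, (k - 1 - j) :=
    Fin.sum_univ_eq_sum_range (fun j => k - 1 - j) k
  rw [h1, Finset.sum_range_reflect (fun j => j) k, Finset.sum_range_id]

end Pool.Agent.Lib.VMV
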