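import Pool.Agent.Lib.VMV.Energy
import Pool.Agent.Lib.VMV.Linnik

/-!
# The recursion for the number of solutions of Vinogradov's system
-/

set_option autoImplicit false

namespace Pool.Agent.Lib.VMV

open Finset

theorem mem_T {ι : Type*} [Fintype ι] [DecidableEq ι] (I : Finset ℤ) (x : ι → ℤ) :
    x ∈ T ι I ↔ ∀ i, x i ∈ I := Fintype.mem_piFinset

theorem J_card_le (k : ℕ) {ι κ : Type*} [Fintype ι] [DecidableEq ι] [Fintype κ] [DecidableEq κ]
    (e : κ ≃ ι) (I : Finset ℤ) : J k ι I ≤ J k κ I := by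
  have hs : ∀ x : ι → ℤ, PS k (x ∘ e) = PS k x := by
    intro x
    funext j
    unfold PS
    exact Equiv.sum_comp e (fun i => x i ^ (j.1 + 1))
  refine en_le_of_inj k _ _ _ _ (fun x => x ∘ e) ?_ ?_ ?_
  · intro x hx
    rw [mem_T] at hx ⊢
    exact fun i => hx (e i)
  · intro x _ y _ h
    exact e.surjective.injective_comp_right h
  · intro x _ y _ h
    rw [hs, hs, h]

theorem J_card (k : ℕ) {ι κ : Type*} [Fintype ι] [DecidableEq ι] [Fintype κ] [DecidableEq κ]
    (h : Fintype.card ι = Fintype.card κ) (I : Finset ℤ) : J k ι I = J k κ I :=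
  le_antisymm (J_card_le k (Fintype.equivOfCardEq h).symm I)
    (J_card_le k (Fintype.equivOfCardEq h) I)

theorem J_eq (Q k : ℕ) [NeZero Q] {ι : Type*} [Fintype ι] [DecidableEq ι] (I : Finset ℤ)
    (R : ℕ) (hR : ∀ x ∈ T ι I, ∀ j, |PS k x j| ≤ R) (hQ : 2 * R < Q) :
    (J k ι I : ℝ) * (Q : ℝ) ^ k
      = ∑ α : Fin k → ZMod Q, (‖F Q k I (pw k) α‖ ^ 2) ^ Fintype.card ι := by
  unfold J
  rw [en_eq Q k _ (PS k) R hR hQ]
  refine Finset.sum_congr rfl fun α _ => ?_
  rw [F_T, norm_pow, ← pow_mul, ← pow_mul, mul_comm]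

theorem norm_F_le (Q k : ℕ) [NeZero Q] {ι : Type*} (D : Finset ι) (V : ι → Fin k → ℤ)
    (α : Fin k → ZMod Q) : ‖F Q k D V α‖ ≤ D.card := by
  unfold F
  refine (norm_sum_le _ _).trans ?_
  simp [norm_E]

/-- Removing variables. -/
theorem J_add_le (k s t : ℕ) (I : Finset ℤ) :
    J k (Fin (s + t)) I ≤ I.card ^ (2 * t) * J k (Fin s) I := by
  classical
  obtain ⟨R1, hR1⟩ := exists_bound k (T (Fin (s + t)) I) (PS k)
  obtain ⟨R2, hR2⟩ := exists_bound k (T (Fin s) I) (PS k)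
  set Q : ℕ := 2 * R1 + 2 * R2 + 1 with hQd
  have : NeZero Q := ⟨by omega⟩
  have h1 := J_eq Q k I R1 hR1 (by omega)
  have h2 := J_eq Q k I R2 hR2 (by omega)
  rw [Fintype.card_fin] at h1 h2
  have hQpos : (0 : ℝ) < (Q : ℝ) ^ k := by
    have : (0 : ℝ) < (Q : ℝ) := by exact_mod_cast Nat.pos_of_ne_zero (NeZero.ne Q)
    positivity
  have h6 : (J k (Fin (s + t)) I : ℝ) * (Q : ℝ) ^ k
      ≤ ((I.card : ℝ) ^ (2 * t) * (J k (Fin s) I : ℝ)) * (Q : ℝ) ^ k := by
    rw [mul_assoc, h1, h2, Finset.mul_sum]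
    refine Finset.sum_le_sum fun α _ => ?_
    rw [pow_add, mul_comm ((‖F Q k I (pw k) α‖ ^ 2) ^ s)]
    refine mul_le_mul_of_nonneg_right ?_ (by positivity)
    rw [pow_mul]
    exact pow_le_pow_left₀ (by positivity)
      (pow_le_pow_left₀ (norm_nonneg _) (norm_F_le Q k I (pw k) α) 2) t
  have h7 := le_of_mul_le_mul_right h6 hQpos
  exact_mod_cast h7

/-- The class of `r`. -/
def cl (p : ℕ) (I : Finset ℤ) (r : ZMod p) : Finset ℤ := I.filter fun n => (n : ZMod p) = r

/-- Splitting into residue classes. -/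
theorem en_classes {ι : Type*} [DecidableEq ι] (k s p : ℕ) [NeZero p] (D : Finset ι)
    (V : ι → Fin k → ℤ) (I : Finset ℤ) (hs : 1 ≤ s) :
    en k (D ×ˢ T (Fin s) I) (fun z => V z.1 + PS k z.2)
      ≤ p ^ (2 * s - 1) * ∑ r : ZMod p,
        en k (D ×ˢ T (Fin s) (cl p I r)) (fun z => V z.1 + PS k z.2) := by
  classical
  obtain ⟨R0, hR0⟩ := exists_bound k (D ×ˢ T (Fin s) I) (fun z => V z.1 + PS k z.2)
  set Q : ℕ := 2 * R0 + 1 with hQd
  have : NeZero Q := ⟨by omega⟩
  have hsub : ∀ r : ZMod p, D ×ˢ T (Fin s) (cl p I r) ⊆ D ×ˢ T (Fin s) I := fun r =>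
    Finset.product_subset_product_right
      (Fintype.piFinset_subset _ _ fun _ => Finset.filter_subset _ _)
  have h1 := en_eq Q k _ _ R0 hR0 (by omega)
  have h2 : ∀ r : ZMod p, (en k (D ×ˢ T (Fin s) (cl p I r))
      (fun z => V z.1 + PS k z.2) : ℝ) * (Q : ℝ) ^ k
      = ∑ α : Fin k → ZMod Q, ‖F Q k D V α‖ ^ 2 * ‖F Q k (cl p I r) (pw k) α‖ ^ (2 * s) := by
    intro r
    rw [en_eq Q k _ _ R0 (fun x hx => hR0 x (hsub r hx)) (by omega)]
    refine Finset.sum_congr rfl fun α _ => ?_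
    rw [F_prod, F_T, norm_mul, mul_pow, norm_pow, Fintype.card_fin, ← pow_mul, mul_comm s 2]
  have hQpos : (0 : ℝ) < (Q : ℝ) ^ k := by
    have : (0 : ℝ) < (Q : ℝ) := by exact_mod_cast Nat.pos_of_ne_zero (NeZero.ne Q)
    positivity
  have h6 : (en k (D ×ˢ T (Fin s) I) (fun z => V z.1 + PS k z.2) : ℝ) * (Q : ℝ) ^ k
      ≤ ((p : ℝ) ^ (2 * s - 1) * ∑ r : ZMod p, (en k (D ×ˢ T (Fin s) (cl p I r))
        (fun z => V z.1 + PS k z.2) : ℝ)) * (Q : ℝ) ^ k := by
    rw [mul_assoc, h1, Finset.sum_mul, Finset.sum_congr rfl (fun r _ => h2 r), Finset.sum_comm,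
      Finset.mul_sum]
    refine Finset.sum_le_sum fun α _ => ?_
    rw [F_prod, F_T, norm_mul, mul_pow, norm_pow, Fintype.card_fin, ← pow_mul, mul_comm s 2,
      ← Finset.mul_sum]
    have h3 : F Q k I (pw k) α = ∑ r : ZMod p, F Q k (cl p I r) (pw k) α := by
      unfold F cl
      exact (Finset.sum_fiberwise _ _ _).symm
    have h4 : ‖F Q k I (pw k) α‖ ^ (2 * s) ≤ (p : ℝ) ^ (2 * s - 1) *
        ∑ r : ZMod p, ‖F Q k (cl p I r) (pw k) α‖ ^ (2 * s) := by
      have h5 := pow_sum_le_card_mul_sum_pow (s := (Finset.univ : Finset (ZMod p)))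
        (f := fun r => ‖F Q k (cl p I r) (pw k) α‖) (fun _ _ => norm_nonneg _) (2 * s - 1)
      rw [Finset.card_univ, ZMod.card, show 2 * s - 1 + 1 = 2 * s by omega] at h5
      refine le_trans ?_ h5
      refine pow_le_pow_left₀ (norm_nonneg _) ?_ _
      rw [h3]
      exact norm_sum_le _ _
    nlinarith [sq_nonneg ‖F Q k D V α‖, h4]
  have h7 := le_of_mul_le_mul_right h6 hQpos
  exact_mod_cast h7

/-- Equal power sums stay equal after a shift. -/
theorem shift_PS {ι : Type*} [Fintype ι] (k : ℕ) (x y : ι → ℤ) (h : PS k x = PS k y) (a : ℤ) :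
    PS k (fun i => x i + a) = PS k (fun i => y i + a) := by
  funext j
  unfold PS
  simp only [add_pow]
  rw [Finset.sum_comm, Finset.sum_comm (s := (Finset.univ : Finset ι))]
  refine Finset.sum_congr rfl fun m hm => ?_
  rw [← Finset.sum_mul, ← Finset.sum_mul, ← Finset.sum_mul, ← Finset.sum_mul]
  congr 2
  rcases Nat.eq_zero_or_pos m with rfl | hm0
  · simp
  · have hm' := Finset.mem_range.mp hm
    have hj := j.2
    have := congrFun h ⟨m - 1, by omega⟩
    unfold PS at this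
    simpa [Nat.sub_add_cancel hm0] using this

theorem PS_elim (k : ℕ) {ι κ : Type*} [Fintype ι] [Fintype κ] (x : ι → ℤ) (u : κ → ℤ) :
    PS k (Sum.elim x u) = PS k x + PS k u := by
  funext j
  simp [PS, Fintype.sum_sum_type]

theorem shift_PS2 {ι κ : Type*} [Fintype ι] [Fintype κ] (k : ℕ) (x y : ι → ℤ) (u v : κ → ℤ)
    (h : PS k x + PS k u = PS k y + PS k v) (a : ℤ) :
    PS k (fun i => x i + a) + PS k (fun i => u i + a)
      = PS k (fun i => y i + a) + PS k (fun i => v i + a) := by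
  have h1 : PS k (Sum.elim x u) = PS k (Sum.elim y v) := by
    rw [PS_elim, PS_elim, h]
  have h2 := shift_PS k _ _ h1 a
  have e : ∀ (x : ι → ℤ) (u : κ → ℤ), (fun i => Sum.elim x u i + a)
      = Sum.elim (fun i => x i + a) (fun i => u i + a) := by
    intro x u
    funext i
    cases i <;> rfl
  rw [e, e, PS_elim, PS_elim] at h2
  exact h2

theorem mem_cl (p : ℕ) (I : Finset ℤ) (r : ZMod p) (n : ℤ) :
    n ∈ cl p I r ↔ n ∈ I ∧ (n : ZMod p) = r := Finset.mem_filter

theorem cl_dvd (p : ℕ) [NeZero p] (I : Finset ℤ) (r : ZMod p) (n : ℤ) (h : n ∈ cl p I r) :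
    (p : ℤ) ∣ n - (r.val : ℤ) := by
  rw [mem_cl] at h
  rw [← ZMod.intCast_zmod_eq_zero_iff_dvd]
  push_cast
  rw [h.2, ZMod.natCast_zmod_val, sub_self]

/-- A residue class is an affine image of an interval. -/
theorem J_class (k N p : ℕ) (hp : 1 ≤ p) [NeZero p] {ι : Type*} [Fintype ι] [DecidableEq ι]
    (r : ZMod p) :
    J k ι (cl p (Finset.Icc (1 : ℤ) N) r) ≤ J k ι (Finset.Icc (1 : ℤ) ((N / p + 1 : ℕ) : ℤ)) := by
  classical
  have hp0 : (0 : ℤ) < (p : ℤ) := by exact_mod_cast hp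
  have key : ∀ n ∈ cl p (Finset.Icc (1 : ℤ) N) r,
      (p : ℤ) * (n / p + 1) = n + ((p : ℤ) - r.val) := by
    intro n hn
    have h1 := cl_dvd p _ r n hn
    have h2 : n % p = (r.val : ℤ) := by
      have h3 : (r.val : ℤ) < p := by exact_mod_cast r.val_lt
      have h4 : (0 : ℤ) ≤ (r.val : ℤ) := by positivity
      have h5 : n % p = (r.val : ℤ) % p :=
        Int.emod_eq_emod_iff_emod_sub_eq_zero.mpr (Int.emod_eq_zero_of_dvd h1)
      rw [h5, Int.emod_eq_of_lt h4 h3]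
    have h3 := Int.mul_ediv_add_emod n p
    rw [h2] at h3
    linarith
  refine en_le_of_inj k _ _ _ _ (fun u => fun i => u i / p + 1) ?_ ?_ ?_
  · intro u hu
    rw [mem_T] at hu ⊢
    intro i
    have h1 := (Finset.mem_Icc.mp ((mem_cl _ _ _ _).mp (hu i)).1)
    rw [Finset.mem_Icc]
    constructor
    · have : 0 ≤ u i / p := Int.ediv_nonneg (by linarith [h1.1]) hp0.le
      linarith
    · have : u i / p ≤ (N : ℤ) / p := Int.ediv_le_ediv hp0 h1.2
      push_cast
      linarith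
  · intro u hu v hv h
    funext i
    have h1 := congrFun h i
    have h2 := key _ ((mem_T _ _).mp hu i)
    have h3 := key _ ((mem_T _ _).mp hv i)
    have h4 : u i / p + 1 = v i / p + 1 := h1
    rw [h4] at h2
    linarith
  · intro u hu v hv h
    have h1 := shift_PS k u v h ((p : ℤ) - r.val)
    funext j
    have h2 := congrFun h1 j
    unfold PS at h2 ⊢
    have h3 : ∀ w : ι → ℤ, w ∈ T ι (cl p (Finset.Icc (1 : ℤ) N) r) →
        ∑ i, (w i + ((p : ℤ) - r.val)) ^ (j.1 + 1)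
          = (p : ℤ) ^ (j.1 + 1) * ∑ i, (w i / p + 1) ^ (j.1 + 1) := by
      intro w hw
      rw [Finset.mul_sum]
      refine Finset.sum_congr rfl fun i _ => ?_
      rw [← key _ ((mem_T _ _).mp hw i), mul_pow]
    rw [h3 u hu, h3 v hv] at h2
    exact mul_left_cancel₀ (by positivity) h2

/-- The bound for one residue class. -/
theorem K_bound (k s N p : ℕ) (hp : p.Prime) [NeZero p] (hkp : k < p) (hk : 1 ≤ k)
    (hN : N ≤ p ^ k) (r : ZMod p) :
    en k (dist k N p ×ˢ T (Fin s) (cl p (Finset.Icc (1 : ℤ) N) r))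
        (fun z => PS k z.1 + PS k z.2)
      ≤ J k (Fin s) (Finset.Icc (1 : ℤ) ((N / p + 1 : ℕ) : ℤ)) *
        ((k.factorial * p ^ (k * (k - 1) / 2)) * N ^ k) := by
  classical
  set D := dist k N p with hD
  set U := T (Fin s) (cl p (Finset.Icc (1 : ℤ) N) r) with hU
  set t : Finset ((Fin k → ℤ) × (Fin k → ℤ)) := (D ×ˢ D).filter (fun z => ∀ j : Fin k,
    ((p : ℤ) ^ (j.1 + 1)) ∣ ∑ i, (z.1 i - (r.val : ℤ)) ^ (j.1 + 1)
      - ∑ i, (z.2 i - (r.val : ℤ)) ^ (j.1 + 1)) with ht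
  -- number of pairs `(x, x')`
  have hcardD : D.card ≤ N ^ k := by
    refine (Finset.card_filter_le _ _).trans ?_
    rw [Fintype.card_piFinset]
    simp
  have hcardt : t.card ≤ (k.factorial * p ^ (k * (k - 1) / 2)) * N ^ k := by
    refine (Finset.card_le_mul_card_image_of_maps_to (s := t) (t := D) (f := Prod.snd)
      (fun z hz => (Finset.mem_product.mp (Finset.mem_filter.mp hz).1).2)
      (k.factorial * p ^ (k * (k - 1) / 2)) ?_).trans ?_
    · intro b hb
      refine le_trans ?_ (linnik k N p hp hkp hk hN (r.val : ℤ)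
        (fun j => ∑ i, (b i - (r.val : ℤ)) ^ (j.1 + 1)))
      refine Finset.card_le_card_of_injOn Prod.fst ?_ ?_
      · intro z hz
        have hz1 := Finset.mem_filter.mp (Finset.mem_coe.mp hz)
        have hz2 := Finset.mem_filter.mp hz1.1
        refine Finset.mem_coe.mpr (Finset.mem_filter.mpr
          ⟨(Finset.mem_product.mp hz2.1).1, fun j => ?_⟩)
        have h3 := hz2.2 j
        rw [hz1.2] at h3
        exact h3
      · intro z hz w hw h
        have hz1 := Finset.mem_filter.mp (Finset.mem_coe.mp hz)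
        have hw1 := Finset.mem_filter.mp (Finset.mem_coe.mp hw)
        exact Prod.ext h (hz1.2.trans hw1.2.symm)
    · exact Nat.mul_le_mul_left _ hcardD
  refine le_trans ?_ (Nat.mul_le_mul_left _ hcardt)
  refine le_trans ?_ (Nat.mul_le_mul_right _ (J_class k N p hp.one_lt.le r))
  unfold en
  refine Finset.card_le_mul_card_image_of_maps_to
    (f := fun z : ((Fin k → ℤ) × (Fin s → ℤ)) × ((Fin k → ℤ) × (Fin s → ℤ)) => (z.1.1, z.2.1))
    ?_ _ ?_
  · intro z hz
    have hz1 := Finset.mem_filter.mp hz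
    have hz2 := Finset.mem_product.mp hz1.1
    have hz3 := Finset.mem_product.mp hz2.1
    have hz4 := Finset.mem_product.mp hz2.2
    refine Finset.mem_filter.mpr ⟨Finset.mem_product.mpr ⟨hz3.1, hz4.1⟩, fun j => ?_⟩
    have h1 := congrFun (shift_PS2 k z.1.1 z.2.1 z.1.2 z.2.2 hz1.2 (-(r.val : ℤ))) j
    have h2 : ∀ w ∈ U, ((p : ℤ) ^ (j.1 + 1)) ∣ PS k (fun i => w i + (-(r.val : ℤ))) j := by
      intro w hw
      refine Finset.dvd_sum fun i _ => ?_
      exact pow_dvd_pow_of_dvd (by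
        have := cl_dvd p _ r (w i) ((mem_T _ _).mp hw i)
        simpa [sub_eq_add_neg] using this) _
    have h3 := h2 _ hz3.2
    have h4 := h2 _ hz4.2
    simp only [Pi.add_apply] at h1
    have h5 : ∑ i, (z.1.1 i - (r.val : ℤ)) ^ (j.1 + 1)
      - ∑ i, (z.2.1 i - (r.val : ℤ)) ^ (j.1 + 1)
      = PS k (fun i => z.2.2 i + (-(r.val : ℤ))) j - PS k (fun i => z.1.2 i + (-(r.val : ℤ))) j := by
      have h6 : ∑ i, (z.1.1 i - (r.val : ℤ)) ^ (j.1 + 1)
          = PS k (fun i => z.1.1 i + (-(r.val : ℤ))) j := by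
        simp [PS, sub_eq_add_neg]
      have h7 : ∑ i, (z.2.1 i - (r.val : ℤ)) ^ (j.1 + 1)
          = PS k (fun i => z.2.1 i + (-(r.val : ℤ))) j := by
        simp [PS, sub_eq_add_neg]
      rw [h6, h7]
      linarith
    rw [h5]
    exact dvd_sub h4 h3
  · intro b hb
    refine le_trans ?_ (shift_le k U (PS k) (PS k b.2 - PS k b.1))
    refine Finset.card_le_card_of_injOn
      (fun z : ((Fin k → ℤ) × (Fin s → ℤ)) × ((Fin k → ℤ) × (Fin s → ℤ)) => (z.1.2, z.2.2)) ?_ ?_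
    · intro z hz
      have hz1 := Finset.mem_filter.mp (Finset.mem_coe.mp hz)
      have hz2 := Finset.mem_filter.mp hz1.1
      have hz3 := Finset.mem_product.mp hz2.1
      have hz4 := Finset.mem_product.mp hz3.1
      have hz5 := Finset.mem_product.mp hz3.2
      refine Finset.mem_coe.mpr (Finset.mem_filter.mpr
        ⟨Finset.mem_product.mpr ⟨hz4.2, hz5.2⟩, ?_⟩)
      rw [← hz1.2]
      have := hz2.2
      simp only at this ⊢
      have h8 : PS k z.1.2 - PS k z.2.2 = PS k z.2.1 - PS k z.1.1 := by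
        have h9 : PS k z.1.1 + PS k z.1.2 = PS k z.2.1 + PS k z.2.2 := this
        rw [sub_eq_sub_iff_add_eq_add, add_comm, h9]
      exact h8
    · intro z hz w hw h
      have hz1 := Finset.mem_filter.mp (Finset.mem_coe.mp hz)
      have hw1 := Finset.mem_filter.mp (Finset.mem_coe.mp hw)
      have h1 := Prod.mk.inj h
      have h2 := Prod.mk.inj (hz1.2.trans hw1.2.symm)
      exact Prod.ext (Prod.ext h2.1 h1.1) (Prod.ext h2.2 h1.2)

end Pool.Agent.Lib.VMV
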