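import Pool.Agent.Lib.VMV.Rec

/-!
# One step of the recursion
-/

set_option autoImplicit false

namespace Pool.Agent.Lib.VMV

open Finset

theorem PS_comp (k : ℕ) {ι : Type*} [Fintype ι] (e : Equiv.Perm ι) (x : ι → ℤ) :
    PS k (fun i => x (e i)) = PS k x := by
  funext j
  unfold PS
  exact Equiv.sum_comp e (fun i => x i ^ (j.1 + 1))

/-- A function with at least `k` values has `k` different values at the places chosen by a
permutation. -/
theorem exists_perm (k s : ℕ) {β : Type*} [DecidableEq β] (b : Fin k ⊕ Fin s → β)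
    (h : k ≤ (Finset.univ.image b).card) :
    ∃ τ : Equiv.Perm (Fin k ⊕ Fin s), Function.Injective (fun i : Fin k => b (τ (Sum.inl i))) := by
  classical
  obtain ⟨S, hS, hcard⟩ := Finset.exists_subset_card_eq h
  have e : Fin k ≃ S := (Fintype.equivFinOfCardEq (by rw [Fintype.card_coe, hcard])).symm
  have hex : ∀ i : Fin k, ∃ a : Fin k ⊕ Fin s, b a = (e i : β) := by
    intro i
    have := hS (e i).2
    simpa using this
  choose g hg using hex
  have hginj : Function.Injective g := by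
    intro i i' hii
    have h1 : (e i : β) = (e i' : β) := by rw [← hg i, ← hg i', hii]
    exact e.injective (Subtype.ext h1)
  let e1 : {x // x ∈ Set.range (Sum.inl : Fin k → Fin k ⊕ Fin s)} ≃ {x // x ∈ Set.range g} :=
    (Equiv.ofInjective _ Sum.inl_injective).symm.trans (Equiv.ofInjective g hginj)
  refine ⟨e1.extendSubtype, ?_⟩
  have h2 : ∀ i : Fin k, e1.extendSubtype (Sum.inl i) = g i := by
    intro i
    rw [Equiv.extendSubtype_apply_of_mem _ _ ⟨i, rfl⟩]
    simp only [e1, Equiv.trans_apply]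
    have h3 : (Equiv.ofInjective (Sum.inl : Fin k → Fin k ⊕ Fin s) Sum.inl_injective).symm
        ⟨Sum.inl i, ⟨i, rfl⟩⟩ = i := by
      rw [Equiv.symm_apply_eq]
      rfl
    rw [h3]
    rfl
  intro i i' hii
  simp only [h2, hg] at hii
  exact e.injective (Subtype.ext hii)

/-- The number of functions with few values. -/
theorem card_few (n : ℕ) {ι : Type*} [Fintype ι] [DecidableEq ι] (p : ℕ) [NeZero p] :
    ((Finset.univ : Finset (ι → ZMod p)).filter (fun b => (Finset.univ.image b).card ≤ n)).card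
      ≤ p ^ n * n ^ Fintype.card ι := by
  classical
  have hsub : (Finset.univ : Finset (ι → ZMod p)).filter
      (fun b => (Finset.univ.image b).card ≤ n)
      ⊆ (Finset.univ : Finset ((Fin n → ZMod p) × (ι → Fin n))).image
        (fun z => fun i => z.1 (z.2 i)) := by
    intro b hb
    have hb1 := (Finset.mem_filter.mp hb).2
    rw [Finset.mem_image]
    set S := Finset.univ.image b with hS
    have hmem : ∀ i, b i ∈ S := fun i => Finset.mem_image_of_mem _ (Finset.mem_univ _)
    let e : S ≃ Fin S.card := S.equivFin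
    refine ⟨(fun j => if h : j.1 < S.card then ((e.symm ⟨j.1, h⟩ : S) : ZMod p) else 0,
      fun i => ⟨(e ⟨b i, hmem i⟩).1, lt_of_lt_of_le (e ⟨b i, hmem i⟩).2 hb1⟩),
      Finset.mem_univ _, ?_⟩
    funext i
    simp
  refine (Finset.card_le_card hsub).trans (Finset.card_image_le.trans ?_)
  rw [Finset.card_univ, Fintype.card_prod, Fintype.card_fun, Fintype.card_fun, ZMod.card,
    Fintype.card_fin]

/-- The tuples with `k` different residues. -/
theorem en_A (k s N p : ℕ) (A : Finset (Fin k ⊕ Fin s → ℤ))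
    (hA : ∀ x ∈ A, x ∈ T (Fin k ⊕ Fin s) (Finset.Icc (1 : ℤ) N) ∧
      k ≤ (Finset.univ.image (fun i => (x i : ZMod p))).card) :
    en k A (PS k) ≤ (k + s).factorial ^ 2 *
      en k (dist k N p ×ˢ T (Fin s) (Finset.Icc (1 : ℤ) N)) (fun z => PS k z.1 + PS k z.2) := by
  classical
  have hex : ∀ x : Fin k ⊕ Fin s → ℤ, ∃ τ : Equiv.Perm (Fin k ⊕ Fin s), x ∈ A →
      Function.Injective (fun i : Fin k => ((x (τ (Sum.inl i)) : ℤ) : ZMod p)) := by
    intro x
    by_cases hx : x ∈ A
    · obtain ⟨τ, hτ⟩ := exists_perm k s (fun i => (x i : ZMod p)) (hA x hx).2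
      exact ⟨τ, fun _ => hτ⟩
    · exact ⟨1, fun h => absurd h hx⟩
  choose τ hτ using hex
  have h1 := en_fiber k A (PS k) (Finset.univ : Finset (Equiv.Perm (Fin k ⊕ Fin s))) τ
    (fun _ _ => Finset.mem_univ _)
  have hcard : (Finset.univ : Finset (Equiv.Perm (Fin k ⊕ Fin s))).card = (k + s).factorial := by
    rw [Finset.card_univ, Fintype.card_perm, Fintype.card_sum, Fintype.card_fin, Fintype.card_fin]
  have h2 : ∀ b ∈ (Finset.univ : Finset (Equiv.Perm (Fin k ⊕ Fin s))),
      en k (A.filter fun x => τ x = b) (PS k) ≤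
      en k (dist k N p ×ˢ T (Fin s) (Finset.Icc (1 : ℤ) N)) (fun z => PS k z.1 + PS k z.2) := by
    intro b _
    refine en_le_of_inj k _ _ _ _
      (fun x => (fun i => x (b (Sum.inl i)), fun i => x (b (Sum.inr i)))) ?_ ?_ ?_
    · intro x hx
      have hx1 := Finset.mem_filter.mp hx
      have hx2 := (mem_T _ _).mp (hA x hx1.1).1
      have hx3 := hτ x hx1.1
      rw [hx1.2] at hx3
      refine Finset.mem_product.mpr ⟨?_, (mem_T _ _).mpr fun i => hx2 _⟩
      unfold dist
      refine Finset.mem_filter.mpr ⟨Fintype.mem_piFinset.mpr fun i => hx2 _, ?_⟩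
      intro i i' hii
      refine hx3 ?_
      have h4 := (ZMod.intCast_zmod_eq_zero_iff_dvd _ p).mpr hii
      push_cast at h4
      exact sub_eq_zero.mp h4
    · intro x _ y _ h
      have h3 := Prod.mk.inj h
      funext i
      obtain ⟨j, rfl⟩ := b.surjective i
      cases j with
      | inl j => exact congrFun h3.1 j
      | inr j => exact congrFun h3.2 j
    · intro x _ y _ h
      have h4 : ∀ x : Fin k ⊕ Fin s → ℤ, PS k (fun i => x (b (Sum.inl i)))
          + PS k (fun i => x (b (Sum.inr i))) = PS k x := by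
        intro x
        rw [← PS_comp k b x, ← PS_elim]
        congr 1
        funext i
        cases i <;> rfl
      simp only [h4]
      exact h
  refine h1.trans ?_
  rw [hcard, pow_two, mul_assoc]
  refine Nat.mul_le_mul_left _ ?_
  refine (Finset.sum_le_card_nsmul _ _ _ h2).trans ?_
  rw [hcard, smul_eq_mul]

/-- The tuples with few residues. -/
theorem en_B (k s N p : ℕ) [NeZero p] (hk : 1 ≤ k) (B : Finset (Fin k ⊕ Fin s → ℤ))
    (hB : ∀ x ∈ B, x ∈ T (Fin k ⊕ Fin s) (Finset.Icc (1 : ℤ) N) ∧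
      (Finset.univ.image (fun i => (x i : ZMod p))).card < k) :
    en k B (PS k) ≤ (p ^ (k - 1) * (k - 1) ^ (k + s)) ^ 2 *
      J k (Fin k ⊕ Fin s) (Finset.Icc (1 : ℤ) ((N / p + 1 : ℕ) : ℤ)) := by
  classical
  have hp1 : 1 ≤ p := Nat.pos_of_ne_zero (NeZero.ne p)
  have : Nonempty (Fin k ⊕ Fin s) := ⟨Sum.inl ⟨0, by omega⟩⟩
  set B' := (Finset.univ : Finset (Fin k ⊕ Fin s → ZMod p)).filter
    (fun b => (Finset.univ.image b).card ≤ k - 1) with hB'
  have hcard : B'.card ≤ p ^ (k - 1) * (k - 1) ^ (k + s) := by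
    have := card_few (k - 1) (ι := Fin k ⊕ Fin s) p
    rw [Fintype.card_sum, Fintype.card_fin, Fintype.card_fin] at this
    exact this
  have h1 := en_fiber k B (PS k) B' (fun x => fun i => (x i : ZMod p)) (by
    intro x hx
    have := (hB x hx).2
    exact Finset.mem_filter.mpr ⟨Finset.mem_univ _, by omega⟩)
  have h2 : ∀ b ∈ B', en k (B.filter fun x => (fun i => (x i : ZMod p)) = b) (PS k) ≤
      J k (Fin k ⊕ Fin s) (Finset.Icc (1 : ℤ) ((N / p + 1 : ℕ) : ℤ)) := by
    intro b _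
    have h3 : en k (B.filter fun x => (fun i => (x i : ZMod p)) = b) (PS k)
        ≤ en k (Fintype.piFinset fun i => cl p (Finset.Icc (1 : ℤ) N) (b i)) (PS k) := by
      refine en_mono k _ _ _ ?_
      intro x hx
      have hx1 := Finset.mem_filter.mp hx
      refine Fintype.mem_piFinset.mpr fun i => (mem_cl _ _ _ _).mpr
        ⟨(mem_T _ _).mp (hB x hx1.1).1 i, congrFun hx1.2 i⟩
    refine h3.trans ?_
    have h4 := en_pi_le k (fun i => cl p (Finset.Icc (1 : ℤ) N) (b i))
    have h5 : ∑ i, J k (Fin k ⊕ Fin s) (cl p (Finset.Icc (1 : ℤ) N) (b i))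
        ≤ Fintype.card (Fin k ⊕ Fin s) *
          J k (Fin k ⊕ Fin s) (Finset.Icc (1 : ℤ) ((N / p + 1 : ℕ) : ℤ)) := by
      refine (Finset.sum_le_card_nsmul _ _ _ (fun i _ => J_class k N p hp1 (b i))).trans ?_
      rw [Finset.card_univ, smul_eq_mul]
    exact Nat.le_of_mul_le_mul_left (h4.trans h5) Fintype.card_pos
  refine h1.trans ?_
  rw [pow_two, mul_assoc]
  refine Nat.mul_le_mul hcard ?_
  refine (Finset.sum_le_card_nsmul _ _ _ h2).trans ?_
  rw [smul_eq_mul]
  exact Nat.mul_le_mul_right _ hcard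

/-- **One step of the recursion.** -/
theorem step (k s N p : ℕ) (hp : p.Prime) (hkp : k < p) (hk : 1 ≤ k) (hs : 1 ≤ s)
    (hN : N ≤ p ^ k) :
    J k (Fin (s + k)) (Finset.Icc (1 : ℤ) N) ≤
      2 * ((k + s).factorial ^ 2 * (p ^ (2 * s) *
        (J k (Fin s) (Finset.Icc (1 : ℤ) ((N / p + 1 : ℕ) : ℤ)) *
          ((k.factorial * p ^ (k * (k - 1) / 2)) * N ^ k)))) +
      2 * ((p ^ (k - 1) * (k - 1) ^ (k + s)) ^ 2 * ((N / p + 1) ^ (2 * k) *
        J k (Fin s) (Finset.Icc (1 : ℤ) ((N / p + 1 : ℕ) : ℤ)))) := by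
  classical
  have : NeZero p := ⟨hp.ne_zero⟩
  rw [J_card k (κ := Fin k ⊕ Fin s) (by simp [add_comm])]
  set Ω := T (Fin k ⊕ Fin s) (Finset.Icc (1 : ℤ) N) with hΩ
  set A := Ω.filter (fun x => k ≤ (Finset.univ.image (fun i => (x i : ZMod p))).card) with hA
  set B := Ω.filter (fun x => ¬ k ≤ (Finset.univ.image (fun i => (x i : ZMod p))).card) with hB
  have h1 := en_fiber k Ω (PS k) (Finset.univ : Finset Bool)
    (fun x => decide (k ≤ (Finset.univ.image (fun i => (x i : ZMod p))).card))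
    (fun _ _ => Finset.mem_univ _)
  have hA1 := en_A k s N p A (fun x hx => ⟨(Finset.mem_filter.mp hx).1, (Finset.mem_filter.mp hx).2⟩)
  have hB1 := en_B k s N p hk B (fun x hx => ⟨(Finset.mem_filter.mp hx).1,
    not_le.mp (Finset.mem_filter.mp hx).2⟩)
  have h2 : J k (Fin k ⊕ Fin s) (Finset.Icc (1 : ℤ) N) ≤ 2 * (en k A (PS k) + en k B (PS k)) := by
    refine h1.trans ?_
    rw [Finset.card_univ, Fintype.card_bool, Fintype.sum_bool]
    refine Nat.mul_le_mul_left _ (Nat.add_le_add ?_ ?_)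
    · refine en_mono k _ _ _ ?_
      intro x hx
      have := Finset.mem_filter.mp hx
      exact Finset.mem_filter.mpr ⟨this.1, by simpa using this.2⟩
    · refine en_mono k _ _ _ ?_
      intro x hx
      have := Finset.mem_filter.mp hx
      exact Finset.mem_filter.mpr ⟨this.1, by simpa using this.2⟩
  have h3 : en k (dist k N p ×ˢ T (Fin s) (Finset.Icc (1 : ℤ) N)) (fun z => PS k z.1 + PS k z.2)
      ≤ p ^ (2 * s) * (J k (Fin s) (Finset.Icc (1 : ℤ) ((N / p + 1 : ℕ) : ℤ)) *
          ((k.factorial * p ^ (k * (k - 1) / 2)) * N ^ k)) := by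
    refine (en_classes k s p _ (PS k) _ hs).trans ?_
    have h4 := Finset.sum_le_card_nsmul (Finset.univ : Finset (ZMod p)) _ _
      (fun r _ => K_bound k s N p hp hkp hk hN r)
    rw [Finset.card_univ, ZMod.card, smul_eq_mul] at h4
    refine (Nat.mul_le_mul_left _ h4).trans ?_
    rw [← mul_assoc, ← pow_succ, show 2 * s - 1 + 1 = 2 * s by omega]
  have h5 : J k (Fin k ⊕ Fin s) (Finset.Icc (1 : ℤ) ((N / p + 1 : ℕ) : ℤ)) ≤
      (N / p + 1) ^ (2 * k) * J k (Fin s) (Finset.Icc (1 : ℤ) ((N / p + 1 : ℕ) : ℤ)) := by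
    rw [J_card k (κ := Fin (s + k)) (by simp [add_comm])]
    refine (J_add_le k s k _).trans (le_of_eq ?_)
    rw [Int.card_Icc, add_sub_cancel_right, Int.toNat_natCast]
  refine h2.trans ?_
  rw [mul_add]
  refine Nat.add_le_add (Nat.mul_le_mul_left _ (hA1.trans (Nat.mul_le_mul_left _ h3)))
    (Nat.mul_le_mul_left _ (hB1.trans (Nat.mul_le_mul_left _ h5)))

end Pool.Agent.Lib.VMV
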